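import Mathlib

set_option autoImplicit false

namespace Pool.Agent.E8helper15.AGP

open Finset

/-- lifting the exponent, the easy case -/
theorem pow_dvd_lift {x : ℤ} {g k : ℕ} (hg : g ∣ k) (hx : (k : ℤ) ∣ x - 1) :
    ((k * g : ℕ) : ℤ) ∣ x ^ g - 1 := by
  rw [← mul_geom_sum, Nat.cast_mul]
  apply mul_dvd_mul hx
  have h1 : ∑ i ∈ range g, x ^ i = ∑ i ∈ range g, (x ^ i - 1) + g := by
    rw [sum_sub_distrib]
    simp
  rw [h1]
  apply dvd_add _ (dvd_refl _)
  apply dvd_sum
  intro i _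
  have hgx : (g : ℤ) ∣ x - 1 := (by exact_mod_cast hg : (g : ℤ) ∣ (k : ℤ)).trans hx
  exact hgx.trans (by simpa using sub_dvd_pow_sub_pow x 1 i)

/-- a product of primes `p` with `p - 1 ∣ n - 1` has all reduced residues as Fermat liars -/
theorem liars {P : Finset ℕ} (hP : ∀ p ∈ P, p.Prime) {n : ℕ} (hn : n = ∏ p ∈ P, p)
    (hd : ∀ p ∈ P, p - 1 ∣ n - 1) :
    n.totient ≤ ((range n).filter (fun a => a ^ (n - 1) ≡ 1 [MOD n])).card := by
  rw [Nat.totient_eq_card_coprime]
  apply card_le_card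
  intro a ha
  rw [mem_filter] at ha ⊢
  refine ⟨ha.1, ?_⟩
  have hn0 : 0 < n := by
    rw [hn]; exact prod_pos fun p hp => (hP p hp).pos
  rcases Nat.eq_zero_or_pos a with h0 | h0
  · subst h0
    have : n = 1 := by simpa using ha.2
    rw [this]
    exact Nat.modEq_one
  have h1 : 1 ≤ a ^ (n - 1) := Nat.one_le_pow _ _ h0
  apply Nat.ModEq.symm
  rw [Nat.modEq_iff_dvd' h1]
  conv_lhs => rw [hn]
  apply prod_primes_dvd
  · intro p hp
    exact (hP p hp).prime
  · intro p hp
    rw [← Nat.modEq_iff_dvd' h1]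
    apply Nat.ModEq.symm
    obtain ⟨c, hc⟩ := hd p hp
    have hpn : p ∣ n := by rw [hn]; exact dvd_prod_of_mem _ hp
    have hcop : Nat.Coprime a p := (Nat.Coprime.coprime_dvd_left hpn ha.2).symm
    have h2 := Nat.ModEq.pow_totient hcop
    rw [Nat.totient_prime (hP p hp)] at h2
    rw [hc, pow_mul]
    simpa using h2.pow c

theorem prod_one_sub_ge (P : Finset ℕ) (x : ℕ → ℝ) (hx : ∀ p ∈ P, 0 ≤ x p ∧ x p ≤ 1) :
    1 - ∑ p ∈ P, x p ≤ ∏ p ∈ P, (1 - x p) := by
  classical
  induction P using Finset.induction_on with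
  | empty => simp
  | @insert a P ha ih =>
    rw [sum_insert ha, prod_insert ha]
    have h1 := ih fun p hp => hx p (mem_insert_of_mem hp)
    have h2 := hx a (mem_insert_self a P)
    have h3 : 0 ≤ ∑ p ∈ P, x p := sum_nonneg fun p hp => (hx p (mem_insert_of_mem hp)).1
    nlinarith [h2.1, h2.2]

theorem totient_ge {P : Finset ℕ} (hP : ∀ p ∈ P, p.Prime) {n : ℕ} (hn : n = ∏ p ∈ P, p)
    {m : ℝ} (hm : 0 < m) (hPm : ∀ p ∈ P, m ≤ p) :
    (n : ℝ) * (1 - P.card / m) ≤ n.totient := by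
  have h1 := Nat.totient_eq_mul_prod_factors n
  have h2 : n.primeFactors = P := by rw [hn]; exact Nat.primeFactors_prod hP
  rw [h2] at h1
  have h3 : (n.totient : ℝ) = n * ∏ p ∈ P, (1 - (p : ℝ)⁻¹) := by
    have := congrArg (fun x : ℚ => (x : ℝ)) h1
    push_cast at this
    exact this
  rw [h3]
  apply mul_le_mul_of_nonneg_left _ (Nat.cast_nonneg n)
  refine le_trans ?_ (prod_one_sub_ge P (fun p => (p : ℝ)⁻¹) ?_)
  · have h4 : ∑ p ∈ P, ((p : ℝ)⁻¹) ≤ P.card / m := by
      calc ∑ p ∈ P, ((p : ℝ)⁻¹) ≤ ∑ p ∈ P, m⁻¹ := by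
            apply sum_le_sum
            intro p hp
            exact inv_anti₀ hm (hPm p hp)
        _ = _ := by rw [sum_const, nsmul_eq_mul]; ring
    linarith
  · intro p hp
    have : (1 : ℝ) ≤ p := by exact_mod_cast (hP p hp).one_le
    exact ⟨by positivity, inv_le_one_of_one_le₀ this⟩

/-- a common multiple of all `y`-smooth numbers up to `z` -/
def M0 (y z : ℕ) : ℕ := ∏ r ∈ (range (y + 1)).filter Nat.Prime, r ^ Nat.log r z

theorem dvd_M0 {y z m : ℕ} (hm : m ≠ 0) (hmz : m ≤ z) (hs : ∀ r, r.Prime → r ∣ m → r ≤ y) :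
    m ∣ M0 y z := by
  unfold M0
  have hsub : m.primeFactors ⊆ (range (y + 1)).filter Nat.Prime := by
    intro r hr
    have h1 := Nat.prime_of_mem_primeFactors hr
    have h2 := Nat.dvd_of_mem_primeFactors hr
    rw [mem_filter, mem_range]
    have := hs r h1 h2
    exact ⟨by omega, h1⟩
  calc m = ∏ r ∈ m.primeFactors, r ^ m.factorization r :=
        Nat.prod_primeFactors_pow_factorization hm
    _ ∣ ∏ r ∈ m.primeFactors, r ^ Nat.log r z := by
        apply prod_dvd_prod_of_dvd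
        intro r hr
        apply pow_dvd_pow
        have h1 := Nat.prime_of_mem_primeFactors hr
        apply Nat.le_log_of_pow_le h1.one_lt
        exact (Nat.le_of_dvd (Nat.pos_of_ne_zero hm) (Nat.ordProj_dvd m r)).trans hmz
    _ ∣ _ := prod_dvd_prod_of_subset _ _ _ hsub

theorem M0_le {y z : ℕ} (hz : 1 ≤ z) : M0 y z ≤ z ^ y := by
  unfold M0
  calc ∏ r ∈ (range (y + 1)).filter Nat.Prime, r ^ Nat.log r z
      ≤ ∏ r ∈ (range (y + 1)).filter Nat.Prime, z :=
        prod_le_prod' fun r _ => Nat.pow_log_le_self r (by omega)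
    _ = z ^ ((range (y + 1)).filter Nat.Prime).card := by rw [prod_const]
    _ ≤ z ^ y := by
        apply Nat.pow_le_pow_right hz
        calc ((range (y + 1)).filter Nat.Prime).card ≤ (Ico 1 (y + 1)).card := by
              apply card_le_card
              intro r hr
              rw [mem_filter, mem_range] at hr
              rw [mem_Ico]
              exact ⟨hr.2.one_le, hr.1⟩
          _ = y := by rw [Nat.card_Ico]; omega

theorem M0_pos (y z : ℕ) : 0 < M0 y z := by
  unfold M0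
  apply prod_pos
  intro r hr
  rw [mem_filter] at hr
  exact pow_pos hr.2.pos _

end Pool.Agent.E8helper15.AGP
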