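import Pool.Agent.H343R2.EH.Psi
import Pool.Agent.H343R2.EH.BVLog

set_option autoImplicit false

namespace Pool.Agent.E8helper15.AGP

open Finset Filter Topology

theorem psi1_eq_psi (x : ℝ) : H343E.psi1 x = Chebyshev.psi x := by
  unfold H343E.psi1 Chebyshev.psi
  apply sum_congr _ fun _ _ => rfl
  ext n
  rw [mem_Icc, mem_Ioc]
  omega

/-- powers of the logarithm are small -/
theorem log_pow_le (c : ℝ) (hc : 0 < c) (B : ℕ) :
    ∀ᶠ u : ℕ in atTop, (c * Real.log u) ^ B ≤ u := by
  have h1 : ∀ᶠ x : ℝ in atTop, (c * Real.log x) ^ B ≤ x := by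
    have h2 := (Real.isLittleO_pow_log_id_atTop (n := B)).def (show (0 : ℝ) < (c ^ B)⁻¹ by positivity)
    filter_upwards [h2, eventually_ge_atTop (1 : ℝ)] with x hx hx1
    rw [id, Real.norm_eq_abs, Real.norm_eq_abs, abs_of_nonneg (by linarith : (0 : ℝ) ≤ x),
      abs_of_nonneg (pow_nonneg (Real.log_nonneg hx1) B)] at hx
    rw [mul_pow]
    calc c ^ B * Real.log x ^ B ≤ c ^ B * ((c ^ B)⁻¹ * x) := by gcongr
      _ = x := by field_simp
  exact tendsto_natCast_atTop_atTop.eventually h1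

theorem log_le_eps (ε : ℝ) (hε : 0 < ε) : ∀ᶠ x : ℝ in atTop, Real.log x ≤ ε * x := by
  have h2 := (Real.isLittleO_pow_log_id_atTop (n := 1)).def hε
  filter_upwards [h2, eventually_ge_atTop (1 : ℝ)] with x hx hx1
  rw [id, Real.norm_eq_abs, Real.norm_eq_abs, abs_of_nonneg (by linarith : (0 : ℝ) ≤ x),
    abs_of_nonneg (pow_nonneg (Real.log_nonneg hx1) 1), pow_one] at hx
  exact hx

theorem psi_lower : ∀ᶠ x : ℝ in atTop, 0.68 * x ≤ Chebyshev.psi x := by
  filter_upwards [log_le_eps 0.002 (by norm_num), eventually_ge_atTop (1000 : ℝ)] with x h1 h2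
  have h3 := Chebyshev.psi_ge' (x := x) (by linarith)
  have h4 : (0.6931471803 : ℝ) < Real.log 2 := Real.log_two_gt_d9
  have h4' : Real.log 2 < (0.6931471808 : ℝ) := Real.log_two_lt_d9
  have h5 : Real.log (x + 2) ≤ Real.log 2 + Real.log x := by
    rw [← Real.log_mul (by norm_num) (by linarith)]
    apply Real.log_le_log (by linarith)
    linarith
  nlinarith

theorem theta_lower : ∀ᶠ x : ℝ in atTop, 0.67 * x ≤ Chebyshev.theta x := by
  have h0 : ∀ᶠ x : ℝ in atTop, Real.log (√x) ≤ 0.001 * √x :=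
    Real.tendsto_sqrt_atTop.eventually (log_le_eps 0.001 (by norm_num))
  filter_upwards [psi_lower, eventually_ge_atTop (1 : ℝ), h0] with x h1 h2 h3
  have h4 := Chebyshev.psi_sub_theta_le h2
  rw [Real.log_sqrt (by linarith)] at h3
  have h5 : √x * √x = x := Real.mul_self_sqrt (by linarith)
  have h6 : 0 ≤ √x := Real.sqrt_nonneg x
  have h7 : 2 * √x * Real.log x ≤ 0.01 * x := by
    calc 2 * √x * Real.log x ≤ 2 * √x * (0.002 * √x) := by
          apply mul_le_mul_of_nonneg_left _ (by positivity)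
          linarith
      _ = 0.004 * (√x * √x) := by ring
      _ ≤ 0.01 * x := by rw [h5]; linarith
  linarith

end Pool.Agent.E8helper15.AGP
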