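import Mathlib

set_option autoImplicit false

namespace Pool.Agent.E8helper15.AGP

open Finset

theorem squarefree_prod {A : Finset ℕ} (hA : ∀ q ∈ A, q.Prime) : Squarefree (∏ q ∈ A, q) := by
  refine Finset.squarefree_prod_of_pairwise_isCoprime (fun p hp q hq hpq ↦ ?_) ?_
  · exact Nat.coprime_iff_isRelPrime.1 ((Nat.coprime_primes (hA p hp) (hA q hq)).2 hpq)
  · intro p hp
    exact (hA p hp).prime.squarefree

theorem prod_injOn {Q : Finset ℕ} (hQ : ∀ q ∈ Q, q.Prime) {A B : Finset ℕ} (hA : A ⊆ Q) (hB : B ⊆ Q)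
    (h : ∏ q ∈ A, q = ∏ q ∈ B, q) : A = B := by
  rw [← Nat.primeFactors_prod (s := A) fun q hq => hQ q (hA hq), h,
      Nat.primeFactors_prod (s := B) fun q hq => hQ q (hB hq)]

theorem divisors_le {A : Finset ℕ} (hA : ∀ q ∈ A, q.Prime) (S : ℕ → ℝ) (hS : ∀ f, 0 ≤ S f) :
    ∑ f ∈ (∏ q ∈ A, q).divisors.filter (fun f => f ≠ 1), S f ≤
      ∑ B ∈ A.powerset.filter (fun B => B ≠ ∅), S (∏ q ∈ B, q) := by
  classical
  have h1 : ∑ B ∈ A.powerset.filter (fun B => B ≠ ∅), S (∏ q ∈ B, q) =
      ∑ f ∈ (A.powerset.filter (fun B => B ≠ ∅)).image (fun B => ∏ q ∈ B, q), S f := by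
    rw [sum_image]
    intro B hB C hC h
    rw [mem_coe, mem_filter, mem_powerset] at hB hC
    exact prod_injOn hA hB.1 hC.1 h
  rw [h1]
  apply sum_le_sum_of_subset_of_nonneg
  · intro f hf
    rw [mem_filter, Nat.mem_divisors] at hf
    rw [mem_image]
    have hsq := squarefree_prod hA
    have hf2 : Squarefree f := hsq.squarefree_of_dvd hf.1.1
    refine ⟨f.primeFactors, ?_, Nat.prod_primeFactors_of_squarefree hf2⟩
    rw [mem_filter, mem_powerset]
    constructor
    · have := Nat.primeFactors_mono hf.1.1 hf.1.2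
      rwa [Nat.primeFactors_prod hA] at this
    · intro h
      rw [Nat.primeFactors_eq_empty] at h
      rcases h with h | h
      · have h2 := hf.1.1
        rw [h] at h2
        exact hf.1.2 (zero_dvd_iff.1 h2)
      · exact hf.2 h
  · intro f _ _
    exact hS f

theorem count_sup {Q B : Finset ℕ} (hB : B ⊆ Q) {j : ℕ} :
    ((powersetCard j Q).filter (fun A => B ⊆ A)).card ≤ (Q.card - B.card).choose (j - B.card) := by
  classical
  rw [← card_sdiff_of_subset hB, ← card_powersetCard]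
  apply card_le_card_of_injOn (fun A => A \ B)
  · intro A hA
    rw [mem_coe, mem_filter, mem_powersetCard] at hA
    rw [mem_coe, mem_powersetCard]
    refine ⟨sdiff_subset_sdiff hA.1.1 (Subset.refl B), ?_⟩
    rw [card_sdiff_of_subset hA.2, hA.1.2]
  · intro A hA C hC h
    rw [mem_coe, mem_filter] at hA hC
    have h' : A \ B = C \ B := h
    rw [← sdiff_union_of_subset hA.2, ← sdiff_union_of_subset hC.2, h']

theorem avg (Q : Finset ℕ) (j : ℕ) (S : Finset ℕ → ℝ) (hS : ∀ B, 0 ≤ S B) :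
    ∑ A ∈ powersetCard j Q, ∑ B ∈ A.powerset.filter (fun B => B ≠ ∅), S B ≤
      ∑ i ∈ Icc 1 j, ((Q.card - i).choose (j - i) : ℝ) * ∑ B ∈ powersetCard i Q, S B := by
  classical
  have h1 : ∀ A ∈ powersetCard j Q, ∑ B ∈ A.powerset.filter (fun B => B ≠ ∅), S B ≤
      ∑ i ∈ Icc 1 j, ∑ B ∈ (powersetCard i Q).filter (fun B => B ⊆ A), S B := by
    intro A hA
    rw [mem_powersetCard] at hA
    have hm : ∀ B ∈ A.powerset.filter (fun B => B ≠ ∅), B.card ∈ Icc 1 j := by
      intro B hB
      rw [mem_filter, mem_powerset] at hB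
      rw [mem_Icc]
      have h2 := card_le_card hB.1
      have h3 : 0 < B.card := card_pos.2 (nonempty_iff_ne_empty.2 hB.2)
      omega
    rw [← sum_fiberwise_of_maps_to hm]
    apply sum_le_sum
    intro i _
    apply sum_le_sum_of_subset_of_nonneg
    · intro B hB
      rw [mem_filter, mem_filter, mem_powerset] at hB
      rw [mem_filter, mem_powersetCard]
      exact ⟨⟨hB.1.1.trans hA.1, hB.2⟩, hB.1.1⟩
    · intro B _ _
      exact hS B
  refine (sum_le_sum h1).trans ?_
  rw [sum_comm]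
  apply sum_le_sum
  intro i _
  have h2 : ∑ A ∈ powersetCard j Q, ∑ B ∈ (powersetCard i Q).filter (fun B => B ⊆ A), S B =
      ∑ B ∈ powersetCard i Q, (((powersetCard j Q).filter (fun A => B ⊆ A)).card : ℝ) * S B := by
    simp only [sum_filter]
    rw [sum_comm]
    apply sum_congr rfl
    intro B _
    rw [← sum_filter, sum_const, nsmul_eq_mul]
  rw [h2, mul_sum]
  apply sum_le_sum
  intro B hB
  rw [mem_powersetCard] at hB
  apply mul_le_mul_of_nonneg_right _ (hS B)
  have := count_sup hB.1 (j := j)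
  rw [hB.2] at this
  exact_mod_cast this

theorem choose_bound (T j i : ℕ) (hi : i ≤ j) (hj : j ≤ T) :
    ((T - i).choose (j - i)) * T ^ i ≤ T.choose j * j ^ i := by
  induction i with
  | zero => simp
  | succ i ih =>
    have ih' := ih (by omega)
    obtain ⟨b, hb⟩ : ∃ b, j - i = b + 1 := ⟨j - i - 1, by omega⟩
    obtain ⟨a, ha⟩ : ∃ a, T - i = a + 1 := ⟨T - i - 1, by omega⟩
    have hb' : j - (i + 1) = b := by omega
    have ha' : T - (i + 1) = a := by omega
    rw [ha, hb] at ih'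
    rw [hb', ha']
    have h1 := Nat.add_one_mul_choose_eq a b
    have h2 : (b + 1) * T ≤ j * (a + 1) := by
      have e1 : b + 1 = j - i := hb.symm
      have e2 : a + 1 = T - i := ha.symm
      rw [e1, e2]
      obtain ⟨c, rfl⟩ : ∃ c, j = i + c := ⟨j - i, by omega⟩
      obtain ⟨d, rfl⟩ : ∃ d, T = i + c + d := ⟨T - (i + c), by omega⟩
      have e3 : i + c - i = c := by omega
      have e4 : i + c + d - i = c + d := by omega
      rw [e3, e4]
      nlinarith [Nat.zero_le (i * d)]
    have h3 : a.choose b * T ≤ (a + 1).choose (b + 1) * j := by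
      apply Nat.le_of_mul_le_mul_left _ (Nat.succ_pos a)
      calc (a + 1) * (a.choose b * T) = ((a + 1) * a.choose b) * T := by ring
        _ = (a + 1).choose (b + 1) * ((b + 1) * T) := by rw [h1]; ring
        _ ≤ (a + 1).choose (b + 1) * (j * (a + 1)) := Nat.mul_le_mul_left _ h2
        _ = (a + 1) * ((a + 1).choose (b + 1) * j) := by ring
    calc a.choose b * T ^ (i + 1) = (a.choose b * T) * T ^ i := by ring
      _ ≤ ((a + 1).choose (b + 1) * j) * T ^ i := Nat.mul_le_mul_right _ h3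
      _ = ((a + 1).choose (b + 1) * T ^ i) * j := by ring
      _ ≤ (T.choose j * j ^ i) * j := Nat.mul_le_mul_right _ ih'
      _ = T.choose j * j ^ (i + 1) := by ring

theorem choose_bound' (u i : ℕ) (hu : 1 ≤ u) (hi : i ≤ u ^ 7) :
    ((u ^ 9 - i).choose (u ^ 7 - i)) * u ^ (2 * i) ≤ (u ^ 9).choose (u ^ 7) := by
  have h1 := choose_bound (u ^ 9) (u ^ 7) i hi (Nat.pow_le_pow_right hu (by norm_num))
  have h2 : 0 < u ^ (7 * i) := Nat.pow_pos hu
  apply Nat.le_of_mul_le_mul_right _ h2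
  calc (u ^ 9 - i).choose (u ^ 7 - i) * u ^ (2 * i) * u ^ (7 * i) =
      (u ^ 9 - i).choose (u ^ 7 - i) * (u ^ 9) ^ i := by
        rw [mul_assoc, ← pow_add, ← pow_mul]
        congr 2
        omega
    _ ≤ _ := h1
    _ = _ := by rw [← pow_mul]

end Pool.Agent.E8helper15.AGP
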