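import Pool.Agent.E8helper15.AGP.Grp
import Pool.Agent.E8helper15.AGP.Arith

set_option autoImplicit false

namespace Pool.Agent.E8helper15.AGP

open Finset

theorem carm (u : ℕ) (hu : 100 ≤ u) (Q : Finset ℕ) (hQc : Q.card = u ^ 9)
    (hQ : ∀ q ∈ Q, q.Prime ∧ u ^ 9 < q ∧ q ≤ u ^ 10)
    (hsm : ∀ q ∈ Q, ∀ r, r.Prime → r ∣ q - 1 → r ≤ u ^ 6)
    (k : ℕ) (hk1 : 1 ≤ k) (hkX : k ≤ u ^ (100 * u ^ 7))
    (hkQ : (Q.filter (fun q => q ∣ k)).card < u)
    (AA : Finset (Finset ℕ)) (hAA : AA ⊆ Q.powersetCard (u ^ 7))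
    (hp : ∀ A ∈ AA, ((∏ q ∈ A, q) * k + 1).Prime)
    (hcard : u ^ (u ^ 7 - 20) ≤ AA.card) :
    ∃ n : ℕ, u < n ∧ ¬ n.Prime ∧ (1 - 1 / (u : ℝ)) * n ≤
      (((range n).filter (fun a => a ^ (n - 1) ≡ 1 [MOD n])).card : ℝ) := by
  classical
  have hu1 : 1 ≤ u := by omega
  have hu0 : 0 < u := by omega
  have hj2 : 2 ≤ u ^ 7 := by
    calc 2 ≤ u := by omega
      _ = u ^ 1 := (pow_one u).symm
      _ ≤ u ^ 7 := Nat.pow_le_pow_right hu0 (by norm_num)
  have hjT : u ^ 7 < u ^ 9 := Nat.pow_lt_pow_right (by omega) (by norm_num)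
  set L0 := ∏ q ∈ Q, q with hL0
  set g := ∏ q ∈ Q.filter (fun q => q ∣ k), q with hg
  set L1 := ∏ q ∈ Q.filter (fun q => ¬ q ∣ k), q with hL1
  have hgL : L0 = g * L1 := by
    rw [hL0, hg, hL1, prod_filter_mul_prod_filter_not]
  have hgk : g ∣ k := by
    apply prod_primes_dvd
    · intro q hq
      rw [mem_filter] at hq
      exact (hQ q hq.1).1.prime
    · intro q hq
      rw [mem_filter] at hq
      exact hq.2
  have hkL1 : Nat.Coprime k L1 := by
    apply Nat.Coprime.prod_right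
    intro q hq
    rw [mem_filter] at hq
    exact ((Nat.Prime.coprime_iff_not_dvd (hQ q hq.1).1).2 hq.2).symm
  have hcop1 : Nat.Coprime (k * g) L1 :=
    Nat.Coprime.mul_left hkL1 (Nat.Coprime.coprime_dvd_left hgk hkL1)
  set m := k * L0 with hm
  have hm' : m = (k * g) * L1 := by rw [hm, hgL, mul_assoc]
  have hL0pos : 0 < L0 := prod_pos fun q hq => (hQ q hq).1.pos
  have hmpos : 0 < m := Nat.mul_pos hk1 hL0pos
  have : NeZero m := ⟨hmpos.ne'⟩
  have hg0 : 0 < g := prod_pos fun q hq => (hQ q (mem_filter.1 hq).1).1.pos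
  -- the primes
  set p : Finset ℕ → ℕ := fun A => (∏ q ∈ A, q) * k + 1 with hpdef
  have hsub : ∀ A ∈ AA, A ⊆ Q := fun A hA => (mem_powersetCard.1 (hAA hA)).1
  have hAc : ∀ A ∈ AA, A.card = u ^ 7 := fun A hA => (mem_powersetCard.1 (hAA hA)).2
  have hdge : ∀ A ∈ AA, (u ^ 9) ^ (u ^ 7) ≤ ∏ q ∈ A, q := by
    intro A hA
    have h1 := pow_card_le_prod A (fun q => q) (u ^ 9) fun q hq => (hQ q (hsub A hA hq)).2.1.le
    rw [hAc A hA] at h1
    exact h1
  have hdpos : ∀ A ∈ AA, 0 < ∏ q ∈ A, q := fun A hA =>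
    prod_pos fun q hq => (hQ q (hsub A hA hq)).1.pos
  have hddvd : ∀ A ∈ AA, (∏ q ∈ A, q) ∣ L0 := fun A hA =>
    prod_dvd_prod_of_subset _ _ _ (hsub A hA)
  have hdlt : ∀ A ∈ AA, (∏ q ∈ A, q) < L0 := by
    intro A hA
    have h1 : (Q \ A).Nonempty := by
      rw [nonempty_iff_ne_empty]
      intro h
      rw [sdiff_eq_empty_iff_subset] at h
      have := card_le_card h
      rw [hQc, hAc A hA] at this
      omega
    obtain ⟨q, hq⟩ := h1
    rw [mem_sdiff] at hq
    have h2 : (∏ x ∈ insert q A, x) ≤ L0 := by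
      apply Nat.le_of_dvd hL0pos
      apply prod_dvd_prod_of_subset
      intro x hx
      rw [mem_insert] at hx
      rcases hx with h | h
      · rw [h]; exact hq.1
      · exact hsub A hA h
    rw [prod_insert hq.2] at h2
    have h3 : 2 ≤ q := (hQ q hq.1).1.two_le
    have h4 := hdpos A hA
    nlinarith
  have hbig : u ^ 10 < (u ^ 9) ^ (u ^ 7) := by
    rw [← pow_mul]
    apply Nat.pow_lt_pow_right (by omega)
    omega
  have hpgt : ∀ A ∈ AA, (u ^ 9) ^ (u ^ 7) < p A := by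
    intro A hA
    have h1 := hdge A hA
    have h2 : (∏ q ∈ A, q) ≤ (∏ q ∈ A, q) * k := Nat.le_mul_of_pos_right _ hk1
    show (u ^ 9) ^ (u ^ 7) < (∏ q ∈ A, q) * k + 1
    omega
  have hpne : ∀ A ∈ AA, ∀ q ∈ Q, Nat.Coprime (p A) q := by
    intro A hA q hq
    rw [Nat.coprime_primes (hp A hA) (hQ q hq).1]
    intro h
    have h' : p A = q := h
    have h1 := hpgt A hA
    have h2 := (hQ q hq).2.2
    omega
  have hpk : ∀ A ∈ AA, Nat.Coprime (p A) k := by
    intro A hA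
    rw [(hp A hA).coprime_iff_not_dvd]
    intro h
    have h1 := Nat.le_of_dvd hk1 h
    have h2 : k ≤ (∏ q ∈ A, q) * k := Nat.le_mul_of_pos_left _ (hdpos A hA)
    have h3 : p A = (∏ q ∈ A, q) * k + 1 := rfl
    omega
  have hcop : ∀ A ∈ AA, Nat.Coprime (p A) m := by
    intro A hA
    rw [hm]
    apply Nat.Coprime.mul_right (hpk A hA)
    apply Nat.Coprime.prod_right
    intro q hq
    exact hpne A hA q hq
  set M := M0 (u ^ 6) (u ^ 10) * g with hM
  have hM1 : 1 ≤ M := Nat.mul_pos (M0_pos _ _) hg0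
  have hpow : ∀ A ∈ AA, (p A) ^ M ≡ 1 [MOD m] := by
    intro A hA
    have hp1 : 1 ≤ p A := (hp A hA).one_le
    rw [hm']
    apply (Nat.modEq_and_modEq_iff_modEq_mul hcop1).1
    constructor
    · have h1 : (k : ℤ) ∣ ((p A : ℕ) : ℤ) - 1 := by
        show (k : ℤ) ∣ (((∏ q ∈ A, q) * k + 1 : ℕ) : ℤ) - 1
        push_cast
        rw [add_sub_cancel_right]
        exact dvd_mul_left _ _
      have h2 := pow_dvd_lift hgk h1
      have h3 : (p A) ^ g ≡ 1 [MOD (k * g)] := by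
        apply Nat.ModEq.symm
        rw [Nat.modEq_iff_dvd]
        push_cast at h2 ⊢
        exact h2
      have he : M = g * M0 (u ^ 6) (u ^ 10) := mul_comm _ _
      rw [he, pow_mul]
      have h4 := h3.pow (M0 (u ^ 6) (u ^ 10))
      rw [one_pow] at h4
      exact h4
    · have h1 : 1 ≤ (p A) ^ M := Nat.one_le_pow _ _ hp1
      apply Nat.ModEq.symm
      rw [Nat.modEq_iff_dvd' h1]
      apply prod_primes_dvd
      · intro q hq
        rw [mem_filter] at hq
        exact (hQ q hq.1).1.prime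
      · intro q hq
        rw [mem_filter] at hq
        rw [← Nat.modEq_iff_dvd' h1]
        apply Nat.ModEq.symm
        have hqp := (hQ q hq.1).1
        have h2 : q - 1 ∣ M := by
          rw [hM]
          apply Dvd.dvd.mul_right
          apply dvd_M0
          · have := hqp.two_le
            omega
          · have := (hQ q hq.1).2.2
            omega
          · exact hsm q hq.1
        obtain ⟨c, hc⟩ := h2
        have h3 := Nat.ModEq.pow_totient (hpne A hA q hq.1)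
        rw [Nat.totient_prime hqp] at h3
        rw [hc, pow_mul]
        simpa using h3.pow c
  -- the size of the group
  have hur : (100 : ℝ) ≤ u := by exact_mod_cast hu
  have hlogu0 : 0 ≤ Real.log u := Real.log_natCast_nonneg u
  have hlogu : Real.log u ≤ u := (Real.log_le_sub_one_of_pos (by linarith)).trans (by linarith)
  have hlogm : Real.log m ≤ (u : ℝ) ^ 11 := by
    have hk0 : (0 : ℝ) < k := by exact_mod_cast hk1
    have hL0r : (0 : ℝ) < L0 := by exact_mod_cast hL0pos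
    rw [hm, Nat.cast_mul, Real.log_mul hk0.ne' hL0r.ne']
    have h1 : Real.log k ≤ (100 * u ^ 7 : ℕ) * Real.log u := by
      rw [← Real.log_pow]
      apply Real.log_le_log hk0
      exact_mod_cast hkX
    have h2 : Real.log L0 ≤ (10 * u ^ 9 : ℕ) * Real.log u := by
      rw [← Real.log_pow]
      apply Real.log_le_log hL0r
      have : L0 ≤ (u ^ 10) ^ Q.card := prod_le_pow_card Q (fun q => q) (u ^ 10)
        fun q hq => (hQ q hq).2.2
      rw [hQc, ← pow_mul] at this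
      exact_mod_cast this
    have h3 : ((100 * u ^ 7 : ℕ) : ℝ) * Real.log u ≤ 100 * (u : ℝ) ^ 7 * u := by
      push_cast
      apply mul_le_mul_of_nonneg_left hlogu (by positivity)
    have h4 : ((10 * u ^ 9 : ℕ) : ℝ) * Real.log u ≤ 10 * (u : ℝ) ^ 9 * u := by
      push_cast
      apply mul_le_mul_of_nonneg_left hlogu (by positivity)
    have h5 : 100 * (u : ℝ) ^ 7 * u ≤ (u : ℝ) ^ 10 := by
      have : (u : ℝ) ^ 10 = (u : ℝ) ^ 7 * u * u ^ 2 := by ring
      rw [this]
      have h6 : (100 : ℝ) ≤ (u : ℝ) ^ 2 := by nlinarith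
      have h7 : 0 ≤ (u : ℝ) ^ 7 * u := by positivity
      nlinarith
    have h6 : 11 * (u : ℝ) ^ 10 ≤ (u : ℝ) ^ 11 := by
      have : (u : ℝ) ^ 11 = (u : ℝ) * u ^ 10 := by ring
      rw [this]
      apply mul_le_mul_of_nonneg_right (by linarith) (by positivity)
    have h7 : 10 * (u : ℝ) ^ 9 * u = 10 * (u : ℝ) ^ 10 := by ring
    linarith
  have hMle : (M : ℝ) ≤ (u : ℝ) ^ (10 * u ^ 6 + 10 * u) := by
    have h1 : M0 (u ^ 6) (u ^ 10) ≤ (u ^ 10) ^ (u ^ 6) := M0_le (Nat.one_le_pow _ _ hu0)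
    have h2 : g ≤ (u ^ 10) ^ (Q.filter (fun q => q ∣ k)).card :=
      prod_le_pow_card _ (fun q => q) (u ^ 10) fun q hq => (hQ q (mem_filter.1 hq).1).2.2
    have h3 : g ≤ (u ^ 10) ^ u := h2.trans (Nat.pow_le_pow_right (Nat.one_le_pow _ _ hu0) hkQ.le)
    have h4 : M ≤ u ^ (10 * u ^ 6 + 10 * u) := by
      calc M ≤ (u ^ 10) ^ (u ^ 6) * (u ^ 10) ^ u := Nat.mul_le_mul h1 h3
        _ = u ^ (10 * u ^ 6 + 10 * u) := by rw [← pow_mul, ← pow_mul, ← pow_add]
    exact_mod_cast h4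
  have hexp : 10 * u ^ 6 + 10 * u + 11 < u ^ 7 - 20 := by
    have h1 : u ^ 7 = u * u ^ 6 := by ring
    have h2 : 100 * u ^ 6 ≤ u ^ 7 := by
      rw [h1]; exact Nat.mul_le_mul_right _ hu
    have h3 : u ≤ u ^ 6 := by
      calc u = u ^ 1 := (pow_one u).symm
        _ ≤ u ^ 6 := Nat.pow_le_pow_right hu0 (by norm_num)
    omega
  have hN : (M : ℝ) * Real.log (Fintype.card (Additive (ZMod m)ˣ)) < Fintype.card AA := by
    have h1 : Fintype.card (Additive (ZMod m)ˣ) = m.totient := by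
      rw [← ZMod.card_units_eq_totient m]
      exact Fintype.card_congr Additive.toMul
    rw [h1, Fintype.card_coe]
    have h2 : Real.log (m.totient : ℝ) ≤ (u : ℝ) ^ 11 := by
      refine le_trans (Real.log_le_log ?_ ?_) hlogm
      · exact_mod_cast Nat.totient_pos.2 hmpos
      · exact_mod_cast Nat.totient_le m
    calc (M : ℝ) * Real.log (m.totient : ℝ) ≤ (u : ℝ) ^ (10 * u ^ 6 + 10 * u) * (u : ℝ) ^ 11 := by
          apply mul_le_mul hMle h2 (Real.log_natCast_nonneg _) (by positivity)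
      _ = (u : ℝ) ^ (10 * u ^ 6 + 10 * u + 11) := by rw [← pow_add]
      _ < (u : ℝ) ^ (u ^ 7 - 20) := by
          apply pow_lt_pow_right₀ (by linarith) hexp
      _ ≤ AA.card := by exact_mod_cast hcard
  obtain ⟨S, hSne, hS⟩ := subset_sum hM1
    (fun A : AA => Additive.ofMul (ZMod.unitOfCoprime (p A.1) (hcop A.1 A.2))) (by
      intro A
      rw [← ofMul_pow]
      rw [ofMul_eq_zero]
      apply Units.ext
      rw [Units.val_pow_eq_pow_val, ZMod.coe_unitOfCoprime, Units.val_one]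
      have h1 := hpow A.1 A.2
      rw [← ZMod.natCast_eq_natCast_iff] at h1
      push_cast at h1
      exact h1) hN
  -- the Carmichael number
  have hinj : ∀ A ∈ AA, ∀ B ∈ AA, p A = p B → A = B := by
    intro A hA B hB h
    have h1 : (∏ q ∈ A, q) * k + 1 = (∏ q ∈ B, q) * k + 1 := h
    have h2 : (∏ q ∈ A, q) = (∏ q ∈ B, q) :=
      Nat.eq_of_mul_eq_mul_right hk1 (Nat.succ_injective h1)
    rw [← Nat.primeFactors_prod (s := A) fun q hq => (hQ q (hsub A hA hq)).1, h2,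
      Nat.primeFactors_prod (s := B) fun q hq => (hQ q (hsub B hB hq)).1]
  set P : Finset ℕ := S.image (fun A : AA => p A.1) with hP
  set n : ℕ := ∏ r ∈ P, r with hn
  have hnS : n = ∏ A ∈ S, p A.1 := by
    rw [hn, hP, prod_image]
    intro A _ B _ h
    exact Subtype.ext (hinj A.1 A.2 B.1 B.2 h)
  have hmod : m ∣ n - 1 := by
    have h1 : ∏ A ∈ S, ZMod.unitOfCoprime (p A.1) (hcop A.1 A.2) = 1 := by
      rw [← ofMul_prod, ofMul_eq_zero] at hS
      exact hS
    have h2 := congrArg (fun x : (ZMod m)ˣ => (x : ZMod m)) h1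
    simp only [Units.coe_prod, ZMod.coe_unitOfCoprime, Units.val_one] at h2
    rw [← Nat.cast_prod, ← hnS] at h2
    have h3 : n ≡ 1 [MOD m] := by
      rw [← ZMod.natCast_eq_natCast_iff, h2, Nat.cast_one]
    have hn1 : 1 ≤ n := by
      rw [hnS]
      exact Nat.succ_le_of_lt (prod_pos (s := S) (f := fun A : AA => p A.1)
        (fun A _ => (hp A.1 A.2).pos))
    exact (Nat.modEq_iff_dvd' hn1).1 h3.symm
  have hPp : ∀ r ∈ P, ∃ A ∈ AA, r = p A := by
    intro r hr
    rw [hP, mem_image] at hr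
    obtain ⟨A, _, hA⟩ := hr
    exact ⟨A.1, A.2, hA.symm⟩
  have hPprime : ∀ r ∈ P, r.Prime := by
    intro r hr
    obtain ⟨A, hA, rfl⟩ := hPp r hr
    exact hp A hA
  have hPd : ∀ r ∈ P, r - 1 ∣ n - 1 := by
    intro r hr
    obtain ⟨A, hA, rfl⟩ := hPp r hr
    refine dvd_trans ?_ hmod
    show (∏ q ∈ A, q) * k + 1 - 1 ∣ m
    rw [Nat.add_sub_cancel, hm, mul_comm]
    exact mul_dvd_mul_left k (hddvd A hA)
  have hpos : 0 < n := prod_pos fun r hr => (hPprime r hr).pos
  obtain ⟨A, hAS⟩ := hSne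
  have hAA' := A.2
  have hdn : p A.1 ∣ n := by
    rw [hnS]
    exact dvd_prod_of_mem (fun A : AA => p A.1) hAS
  refine ⟨n, ?_, ?_, ?_⟩
  · have h1 := Nat.le_of_dvd hpos hdn
    have h2 := hpgt A.1 A.2
    have h3 : u ≤ u ^ 10 := by
      calc u = u ^ 1 := (pow_one u).symm
        _ ≤ u ^ 10 := Nat.pow_le_pow_right hu0 (by norm_num)
    omega
  · intro hnp
    have h1 : p A.1 = n := (Nat.prime_dvd_prime_iff_eq (hp A.1 A.2) hnp).1 hdn
    rw [← h1] at hmod
    have h2 : m ∣ (∏ q ∈ A.1, q) * k := hmod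
    have h3 := Nat.le_of_dvd (Nat.mul_pos (hdpos A.1 A.2) hk1) h2
    have h4 := hdlt A.1 A.2
    have h5 : m = L0 * k := by rw [hm, mul_comm]
    rw [h5] at h3
    have h6 := Nat.le_of_mul_le_mul_right h3 hk1
    omega
  · have h1 := liars hPprime hn hPd
    have hmr : (0 : ℝ) < ((u : ℝ) ^ 9) ^ (u ^ 7) := by positivity
    have h2 := totient_ge hPprime hn (m := ((u : ℝ) ^ 9) ^ (u ^ 7)) hmr (by
      intro r hr
      obtain ⟨A, hA, rfl⟩ := hPp r hr
      have := (hpgt A hA).le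
      exact_mod_cast this)
    have h3 : (P.card : ℝ) / ((u : ℝ) ^ 9) ^ (u ^ 7) ≤ 1 / u := by
      have h4 : P.card ≤ AA.card := by
        calc P.card ≤ S.card := card_image_le
          _ ≤ (univ : Finset AA).card := card_le_card (subset_univ _)
          _ = AA.card := by rw [card_univ, Fintype.card_coe]
      have h5 : AA.card ≤ (u ^ 9).choose (u ^ 7) := by
        have := card_le_card hAA
        rwa [card_powersetCard, hQc] at this
      have h6 := Nat.choose_le_pow_div (α := ℝ) (u ^ 7) (u ^ 9)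
      have h7 : (P.card : ℝ) ≤ ((u : ℝ) ^ 9) ^ (u ^ 7) / (u ^ 7).factorial := by
        have : (P.card : ℝ) ≤ (((u ^ 9).choose (u ^ 7) : ℕ) : ℝ) := by exact_mod_cast h4.trans h5
        refine this.trans (h6.trans (le_of_eq ?_))
        push_cast
        rfl
      have h8 : (u : ℝ) ≤ ((u ^ 7).factorial : ℝ) := by
        have h9 : u ≤ u ^ 7 := by
          calc u = u ^ 1 := (pow_one u).symm
            _ ≤ u ^ 7 := Nat.pow_le_pow_right hu0 (by norm_num)
        exact_mod_cast h9.trans (Nat.self_le_factorial _)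
      rw [div_le_iff₀ hmr]
      calc (P.card : ℝ) ≤ ((u : ℝ) ^ 9) ^ (u ^ 7) / (u ^ 7).factorial := h7
        _ ≤ ((u : ℝ) ^ 9) ^ (u ^ 7) / u := div_le_div_of_nonneg_left hmr.le (by linarith) h8
        _ = _ := by ring
    have h4 : (n.totient : ℝ) ≤
        (((range n).filter (fun a => a ^ (n - 1) ≡ 1 [MOD n])).card : ℝ) := by exact_mod_cast h1
    refine le_trans ?_ (h2.trans h4)
    rw [mul_comm]
    apply mul_le_mul_of_nonneg_left _ (Nat.cast_nonneg n)
    linarith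

end Pool.Agent.E8helper15.AGP
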