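import Mathlib

/-!
Long sequences in a finite abelian group whose elements have small order contain a nonempty
subsequence with sum zero.
-/

set_option autoImplicit false

namespace Pool.Agent.E8helper15.AGP

open Finset

variable {α : Type} [AddCommGroup α] [Finite α]

theorem map_sum' {ι : Type} (ψ : AddChar α ℂ) (S : Finset ι) (g : ι → α) :
    ψ (∑ i ∈ S, g i) = ∏ i ∈ S, ψ (g i) := by
  classical
  induction S using Finset.induction_on with
  | empty => simp
  | insert a S ha ih => rw [sum_insert ha, prod_insert ha, AddChar.map_add_eq_mul, ih]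

theorem val_pow {M : ℕ} {g : α} (hg : M • g = 0) (ψ : AddChar α ℂ) : (ψ g) ^ M = 1 := by
  rw [← AddChar.map_nsmul_eq_pow, hg, AddChar.map_zero_eq_one]

/-- the greedy choice of a root of unity -/
theorem popular {M : ℕ} (hM : 1 ≤ M) {g : α} (hg : M • g = 0) (R : Finset (AddChar α ℂ)) :
    ∃ c : ℂ, ∃ R' ⊆ R, (∀ ψ ∈ R, ψ ∉ R' → c * ψ g = 1) ∧
      (R'.card : ℝ) ≤ R.card * (1 - 1 / (M : ℝ)) := by
  classical
  set V : Finset ℂ := (Polynomial.nthRoots M (1 : ℂ)).toFinset with hV
  have hVc : V.card ≤ M := (Multiset.toFinset_card_le _).trans (Polynomial.card_nthRoots M 1)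
  have hmaps : ∀ ψ ∈ R, ψ g ∈ V := by
    intro ψ _
    rw [hV, Multiset.mem_toFinset, Polynomial.mem_nthRoots (by omega)]
    exact val_pow hg ψ
  have hM0 : (0 : ℝ) < M := by exact_mod_cast hM
  by_cases hR : R.card = 0
  · refine ⟨0, R, Subset.refl R, ?_, ?_⟩
    · intro ψ h1 h2
      exact absurd h1 h2
    · simp [hR]
  · have hVne : V.Nonempty := by
      obtain ⟨ψ, hψ⟩ := card_pos.1 (Nat.pos_of_ne_zero hR)
      exact ⟨_, hmaps ψ hψ⟩
    have hb : V.card • ((R.card : ℝ) / M) ≤ (R.card : ℝ) := by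
      rw [nsmul_eq_mul]
      calc (V.card : ℝ) * (R.card / M) ≤ M * (R.card / M) := by
            apply mul_le_mul_of_nonneg_right _ (by positivity)
            exact_mod_cast hVc
        _ = R.card := by field_simp
    obtain ⟨v, hv, hle⟩ := exists_le_card_fiber_of_nsmul_le_card_of_maps_to hmaps hVne hb
    have hv0 : v ≠ 0 := by
      rw [hV, Multiset.mem_toFinset, Polynomial.mem_nthRoots (by omega)] at hv
      intro h
      rw [h, zero_pow (by omega)] at hv
      exact zero_ne_one hv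
    refine ⟨v⁻¹, R.filter (fun ψ => ¬ ψ g = v), filter_subset _ _, ?_, ?_⟩
    · intro ψ h1 h2
      rw [mem_filter, not_and, not_not] at h2
      rw [h2 h1, inv_mul_cancel₀ hv0]
    · have hsum := card_filter_add_card_filter_not (s := R) (fun ψ => ψ g = v)
      have h2 : ((R.filter (fun ψ => ψ g = v)).card : ℝ) +
          ((R.filter (fun ψ => ¬ ψ g = v)).card : ℝ) = R.card := by exact_mod_cast hsum
      have h3 : (R.card : ℝ) * (1 - 1 / (M : ℝ)) = R.card - R.card / M := by ring
      rw [h3]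
      linarith

theorem greedy {ι : Type} [DecidableEq ι] {M : ℕ} (hM : 1 ≤ M) (g : ι → α) (hg : ∀ i, M • g i = 0)
    (I : Finset ι) (R : Finset (AddChar α ℂ)) :
    ∃ c : ι → ℂ, ∃ R' ⊆ R, (∀ ψ ∈ R, ψ ∉ R' → ∃ i ∈ I, c i * ψ (g i) = 1) ∧
      (R'.card : ℝ) ≤ R.card * (1 - 1 / (M : ℝ)) ^ I.card := by
  induction I using Finset.induction_on with
  | empty => exact ⟨fun _ => 0, R, Subset.refl R, fun ψ h1 h2 => absurd h1 h2, by simp⟩
  | @insert a I ha ih =>
    obtain ⟨c, R1, hR1, hc1, hc2⟩ := ih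
    obtain ⟨x, R2, hR2, hx1, hx2⟩ := popular hM (hg a) R1
    have hM0 : (1 : ℝ) ≤ M := by exact_mod_cast hM
    have h1 : 0 ≤ 1 - 1 / (M : ℝ) := by
      rw [sub_nonneg, div_le_one (by linarith)]
      exact hM0
    refine ⟨fun i => if i = a then x else c i, R2, hR2.trans hR1, ?_, ?_⟩
    · intro ψ h2 h3
      by_cases h4 : ψ ∈ R1
      · refine ⟨a, mem_insert_self a I, ?_⟩
        show (if a = a then x else c a) * ψ (g a) = 1
        rw [if_pos rfl]
        exact hx1 ψ h4 h3
      · obtain ⟨i, hi, h5⟩ := hc1 ψ h2 h4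
        refine ⟨i, mem_insert_of_mem hi, ?_⟩
        have hia : i ≠ a := by rintro rfl; exact ha hi
        show (if i = a then x else c i) * ψ (g i) = 1
        rw [if_neg hia]
        exact h5
    · rw [card_insert_of_notMem ha, pow_succ]
      calc (R2.card : ℝ) ≤ (R1.card : ℝ) * (1 - 1 / (M : ℝ)) := hx2
        _ ≤ (R.card * (1 - 1 / (M : ℝ)) ^ I.card) * (1 - 1 / (M : ℝ)) :=
            mul_le_mul_of_nonneg_right hc2 h1
        _ = _ := by ring

/-- A family of more than `M log |α|` elements of order dividing `M` has a nonempty subfamily with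
sum zero. -/
theorem subset_sum [Fintype α] {ι : Type} [Fintype ι] {M : ℕ} (hM : 1 ≤ M) (g : ι → α)
    (hg : ∀ i, M • g i = 0)
    (hN : (M : ℝ) * Real.log (Fintype.card α) < Fintype.card ι) :
    ∃ S : Finset ι, S.Nonempty ∧ ∑ i ∈ S, g i = 0 := by
  classical
  by_contra hcon
  push Not at hcon
  obtain ⟨c, R', _, hc1, hc2⟩ := greedy hM g hg univ (univ : Finset (AddChar α ℂ))
  have hM0 : (1 : ℝ) ≤ M := by exact_mod_cast hM
  have hα : (0 : ℝ) < Fintype.card α := by exact_mod_cast Fintype.card_pos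
  have hlt : ((univ : Finset (AddChar α ℂ)).card : ℝ) * (1 - 1 / (M : ℝ)) ^ (univ : Finset ι).card < 1 := by
    rw [card_univ, card_univ, AddChar.card_eq]
    have h1 : (1 - 1 / (M : ℝ)) ≤ Real.exp (-(1 / (M : ℝ))) := by
      have := Real.add_one_le_exp (-(1 / (M : ℝ)))
      linarith
    have h0 : 0 ≤ 1 - 1 / (M : ℝ) := by
      rw [sub_nonneg, div_le_one (by linarith)]
      exact hM0
    have h2 : (1 - 1 / (M : ℝ)) ^ Fintype.card ι ≤ Real.exp (-(Fintype.card ι / (M : ℝ))) := by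
      calc (1 - 1 / (M : ℝ)) ^ Fintype.card ι ≤ (Real.exp (-(1 / (M : ℝ)))) ^ Fintype.card ι :=
            pow_le_pow_left₀ h0 h1 _
        _ = _ := by
            rw [← Real.exp_nat_mul]
            congr 1
            ring
    calc (Fintype.card α : ℝ) * (1 - 1 / (M : ℝ)) ^ Fintype.card ι
        ≤ Fintype.card α * Real.exp (-(Fintype.card ι / (M : ℝ))) :=
          mul_le_mul_of_nonneg_left h2 hα.le
      _ = Real.exp (Real.log (Fintype.card α) - Fintype.card ι / (M : ℝ)) := by
          rw [sub_eq_add_neg, Real.exp_add, Real.exp_log hα]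
      _ < 1 := by
          rw [Real.exp_lt_one_iff, sub_neg, lt_div_iff₀ (by linarith)]
          linarith
  have hz : R'.card = 0 := by
    have := hc2.trans_lt hlt
    have h2 : R'.card < 1 := by
      exact_mod_cast this
    omega
  have hall : ∀ ψ : AddChar α ℂ, ∏ i : ι, (1 - c i * ψ (g i)) = 0 := by
    intro ψ
    have h1 := card_eq_zero.1 hz
    obtain ⟨i, hi, h3⟩ := hc1 ψ (mem_univ _) (by rw [h1]; exact notMem_empty _)
    exact prod_eq_zero hi (by rw [h3, sub_self])
  have hexp : ∀ ψ : AddChar α ℂ, ∏ i : ι, (1 - c i * ψ (g i)) =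
      ∑ S ∈ (univ : Finset ι).powerset, (∏ i ∈ S, (-c i)) * ψ (∑ i ∈ S, g i) := by
    intro ψ
    have h1 : ∀ i ∈ (univ : Finset ι), 1 - c i * ψ (g i) = 1 + (-c i) * ψ (g i) := fun i _ => by ring
    rw [prod_congr rfl h1, prod_one_add]
    apply sum_congr rfl
    intro S _
    rw [prod_mul_distrib, map_sum']
  have hsum : ∑ ψ : AddChar α ℂ, ∑ S ∈ (univ : Finset ι).powerset,
      (∏ i ∈ S, (-c i)) * ψ (∑ i ∈ S, g i) = 0 := by
    apply sum_eq_zero
    intro ψ _
    rw [← hexp ψ, hall ψ]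
  rw [sum_comm] at hsum
  have h3 : ∀ S ∈ (univ : Finset ι).powerset, ∑ ψ : AddChar α ℂ,
      (∏ i ∈ S, (-c i)) * ψ (∑ i ∈ S, g i) = if S = ∅ then (Fintype.card α : ℂ) else 0 := by
    intro S _
    rw [← mul_sum, AddChar.sum_apply_eq_ite]
    by_cases hS : S = ∅
    · subst hS; simp
    · rw [if_neg hS, if_neg (hcon S (nonempty_iff_ne_empty.2 hS)), mul_zero]
  rw [sum_congr rfl h3, sum_ite_eq' ] at hsum
  rw [if_pos (empty_mem_powerset _)] at hsum
  have : (Fintype.card α : ℂ) ≠ 0 := by exact_mod_cast Fintype.card_ne_zero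
  exact this hsum

end Pool.Agent.E8helper15.AGP
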