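import Pool.Agent.E8helper15.AGP.Pairs

set_option autoImplicit false

namespace Pool.Agent.E8helper15.AGP

open Finset Filter Topology Pool.Agent.H410R2 Pool.Agent.H398R2.BV

/-- the admissible cofactors of a modulus -/
def KS (u : ℕ) (Q : Finset ℕ) (d : ℕ) : Finset ℕ :=
  (Icc 1 (u ^ (91 * u ^ 7))).filter
    (fun k => (d * k + 1).Prime ∧ (Q.filter (fun q => q ∣ k)).card < u)

theorem PA_le {u : ℕ} (hu : 1 ≤ u) (Q : Finset ℕ) {d : ℕ} (hd : u ^ (9 * u ^ 7) ≤ d) :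
    (PA (u ^ (100 * u ^ 7)) d).card ≤ (KS u Q d).card +
      ((Icc 1 (u ^ (100 * u ^ 7) / d)).filter (fun k => u ≤ (Q.filter (fun q => q ∣ k)).card)).card := by
  classical
  set N := u ^ (100 * u ^ 7) with hN
  have hd1 : 1 ≤ d := (Nat.one_le_pow _ _ hu).trans hd
  refine le_trans ?_ (card_union_le _ _)
  have hspec : ∀ p ∈ PA N d, d * ((p - 1) / d) + 1 = p ∧ p.Prime ∧ 1 ≤ (p - 1) / d ∧
      (p - 1) / d ≤ N / d := by
    intro p hp
    unfold PA at hp
    rw [mem_filter, mem_Icc] at hp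
    have h2 := hp.2.1.two_le
    have h3 : d ∣ p - 1 := (Nat.modEq_iff_dvd' (by omega)).1 hp.2.2.symm
    have h4 : d * ((p - 1) / d) = p - 1 := Nat.mul_div_cancel' h3
    refine ⟨by omega, hp.2.1, ?_, ?_⟩
    · exact Nat.div_pos (Nat.le_of_dvd (by omega) h3) hd1
    · exact Nat.div_le_div_right (by omega)
  apply card_le_card_of_injOn (fun p => (p - 1) / d)
  · intro p hp
    rw [mem_coe] at hp
    obtain ⟨h1, h2, h3, h4⟩ := hspec p hp
    rw [mem_coe, mem_union]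
    by_cases h : (Q.filter (fun q => q ∣ (p - 1) / d)).card < u
    · left
      unfold KS
      rw [mem_filter, mem_Icc]
      refine ⟨⟨h3, ?_⟩, ?_, h⟩
      · refine h4.trans ?_
        calc N / d ≤ N / u ^ (9 * u ^ 7) := Nat.div_le_div_left hd (Nat.pow_pos hu)
          _ = u ^ (91 * u ^ 7) := by
              rw [hN, Nat.pow_div (by omega) hu]
              congr 1
              omega
      · rw [h1]; exact h2
    · right
      rw [mem_filter, mem_Icc]
      exact ⟨⟨h3, h4⟩, not_lt.1 h⟩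
  · intro p hp r hr h
    rw [mem_coe] at hp hr
    have h1 := (hspec p hp).1
    have h2 := (hspec r hr).1
    have h' : (p - 1) / d = (r - 1) / d := h
    rw [← h1, ← h2, h']

theorem factorial_large : ∀ᶠ u : ℕ in atTop, 20 * (u : ℝ) ^ 18 ≤ (u.factorial : ℝ) := by
  have h1 := tendsto_pow_const_div_const_pow_of_one_lt 18 (show (1 : ℝ) < 2 by norm_num)
  have h2 := FloorSemiring.tendsto_pow_div_factorial_atTop (2 : ℝ)
  have h3 := h1.mul h2
  rw [mul_zero] at h3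
  have h4 := h3.eventually_le_const (show (0 : ℝ) < 1 / 20 by norm_num)
  filter_upwards [h4] with u hu
  have hf : (0 : ℝ) < u.factorial := by exact_mod_cast Nat.factorial_pos u
  have h5 : (u : ℝ) ^ 18 / 2 ^ u * (2 ^ u / (u.factorial : ℝ)) = (u : ℝ) ^ 18 / u.factorial := by
    field_simp
  rw [h5, div_le_iff₀ hf] at hu
  linarith

theorem KS_lower : ∀ᶠ u : ℕ in atTop, ∀ Q : Finset ℕ, Q.card = u ^ 9 →
    (∀ q ∈ Q, q.Prime ∧ u ^ 9 < q ∧ q ≤ u ^ 10) → ∀ A ∈ powersetCard (u ^ 7) Q,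
    Err (XX u) (∏ q ∈ A, q) ≤ XX u / 20 →
    (u : ℝ) ^ (90 * u ^ 7) / (20 * (u : ℝ) ^ 18) ≤ (KS u Q (∏ q ∈ A, q)).card := by
  filter_upwards [tendsto_XX.eventually psiLog1_lower, log_XX_bounds, factorial_large,
    eventually_ge_atTop 100] with u h1 h2 h3 hu Q hQc hQ A hA hE
  have hu1 : 1 ≤ u := by omega
  have hur : (100 : ℝ) ≤ u := by exact_mod_cast hu
  set a : ℝ := (u : ℝ) with ha
  have ha1 : 1 ≤ a := by linarith
  have ha0 : 0 < a := by linarith
  set X := XX u with hX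
  have hXe : X = a ^ (100 * u ^ 7) := rfl
  have hXN : X = ((u ^ (100 * u ^ 7) : ℕ) : ℝ) := by rw [hXe, ha]; push_cast; rfl
  have hX0 : 0 < X := by rw [hXe]; positivity
  have hX1 : 1 ≤ X := by rw [hXe]; exact one_le_pow₀ ha1
  set d := ∏ q ∈ A, q with hd
  have hr := prod_range hQ hA
  rw [← hd] at hr
  have hd1 : 1 ≤ d := (Nat.one_le_pow _ _ hu1).trans hr.1
  have hdr : (0 : ℝ) < d := by exact_mod_cast hd1
  have hd2 : (d : ℝ) ≤ a ^ (10 * u ^ 7) := by rw [ha]; exact_mod_cast hr.2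
  set L := Real.log X with hL
  have hL1 : a ^ 7 ≤ L := h2.1
  have hL2 : L ≤ a ^ 9 := by linarith [h2.2]
  have hL0 : 0 < L := lt_of_lt_of_le (by positivity) hL1
  have hω : (d.primeFactors.card : ℝ) = a ^ 7 := by
    rw [mem_powersetCard] at hA
    rw [hd, Nat.primeFactors_prod fun q hq => (hQ q (hA.1 hq)).1, hA.2, ha]
    push_cast
    rfl
  have h4 := AP_lower X hX1 d hd1
  have h5 := AP_upper (u ^ (100 * u ^ 7)) d (Nat.one_le_pow _ _ hu1)
  rw [← hXN, ← hL] at h5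
  have h6 := PA_le hu1 Q (d := d) hr.1
  have h7 := bad_count hu1 hQc hQ (N := u ^ (100 * u ^ 7) / d)
  set π := ((PA (u ^ (100 * u ^ 7)) d).card : ℝ) with hπ
  set bad := (((Icc 1 (u ^ (100 * u ^ 7) / d)).filter
    (fun k => u ≤ (Q.filter (fun q => q ∣ k)).card)).card : ℝ) with hbad
  have h6' : π ≤ (KS u Q d).card + bad := by
    rw [hπ, hbad]
    exact_mod_cast h6
  have hφ : (0 : ℝ) < Nat.totient d := by exact_mod_cast Nat.totient_pos.2 (by omega)
  have hφd : (Nat.totient d : ℝ) ≤ d := by exact_mod_cast Nat.totient_le d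
  have h8 : 0.15 * X / d ≤ psiLog1 X / (Nat.totient d : ℝ) - Err X d / (Nat.totient d : ℝ) := by
    rw [← sub_div]
    apply div_le_div₀ _ _ hφ hφd
    · linarith
    · linarith
  have hsX : √X = a ^ (50 * u ^ 7) := by
    rw [hXe, show 100 * u ^ 7 = (50 * u ^ 7) * 2 by ring, pow_mul, Real.sqrt_sq (by positivity)]
  set Y := X / (d * L ^ 2) with hY
  have hYX : Y * L ^ 2 = X / d := by
    rw [hY]
    field_simp
  have h9 : 0.15 * Y ≤ π + 2 * √X + 2 * a ^ 7 := by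
    have h10 : L ^ 2 * (0.15 * Y) ≤ L ^ 2 * (π + 2 * √X + 2 * a ^ 7) := by
      calc L ^ 2 * (0.15 * Y) = 0.15 * (Y * L ^ 2) := by ring
        _ = 0.15 * X / d := by rw [hYX]; ring
        _ ≤ psiLogAP X d 1 + 2 * a ^ 7 * L ^ 2 := by rw [hω] at h4; linarith
        _ ≤ L * (L * π + 2 * √X * L) + 2 * a ^ 7 * L ^ 2 := by linarith
        _ = _ := by ring
    exact le_of_mul_le_mul_left h10 (by positivity)
  have hYlow : a ^ (90 * u ^ 7) / a ^ 18 ≤ Y := by
    rw [hY, hXe, div_le_div_iff₀ (by positivity) (by positivity)]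
    calc a ^ (90 * u ^ 7) * (d * L ^ 2) ≤ a ^ (90 * u ^ 7) * (a ^ (10 * u ^ 7) * (a ^ 9) ^ 2) := by
          gcongr
      _ = a ^ (100 * u ^ 7) * a ^ 18 := by
          rw [← mul_assoc, ← pow_add, ← pow_mul]
          congr 2
          ring
  have hj : 1 ≤ u ^ 7 := Nat.one_le_pow _ _ hu1
  have h11 : 2 * √X + 2 * a ^ 7 ≤ 0.05 * Y := by
    have e1 : a ^ 7 ≤ a ^ (50 * u ^ 7) := pow_le_pow_right₀ ha1 (by omega)
    have e2 : 80 * a ^ (50 * u ^ 7) ≤ a ^ (90 * u ^ 7) / a ^ 18 := by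
      rw [le_div_iff₀ (by positivity)]
      calc 80 * a ^ (50 * u ^ 7) * a ^ 18 ≤ a * a ^ (50 * u ^ 7) * a ^ 18 := by
            gcongr
            linarith
        _ = a ^ (50 * u ^ 7 + 19) := by rw [pow_add]; ring
        _ ≤ a ^ (90 * u ^ 7) := pow_le_pow_right₀ ha1 (by omega)
    rw [hsX]
    linarith
  have h12 : bad ≤ 0.05 * Y := by
    have hf : (0 : ℝ) < u.factorial := by exact_mod_cast Nat.factorial_pos u
    have e1 : ((u ^ (100 * u ^ 7) / d : ℕ) : ℝ) ≤ X / d := by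
      rw [hXN]
      exact Nat.cast_div_le
    calc bad ≤ ((u ^ (100 * u ^ 7) / d : ℕ) : ℝ) / u.factorial := h7
      _ ≤ (X / d) / u.factorial := by gcongr
      _ = Y * L ^ 2 / u.factorial := by rw [hYX]
      _ ≤ 0.05 * Y := by
          have hY0 : 0 ≤ Y := le_trans (by positivity) hYlow
          rw [div_le_iff₀ hf]
          have e2 : L ^ 2 ≤ a ^ 18 := by
            calc L ^ 2 ≤ (a ^ 9) ^ 2 := by gcongr
              _ = a ^ 18 := by ring
          have e3 : L ^ 2 ≤ 0.05 * u.factorial := by linarith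
          calc Y * L ^ 2 ≤ Y * (0.05 * u.factorial) := mul_le_mul_of_nonneg_left e3 hY0
            _ = _ := by ring
  have h13 : 0.05 * Y ≤ (KS u Q d).card := by linarith
  calc a ^ (90 * u ^ 7) / (20 * a ^ 18) = 0.05 * (a ^ (90 * u ^ 7) / a ^ 18) := by
        rw [show (0.05 : ℝ) = 1 / 20 by norm_num, div_mul_div_comm, one_mul]
    _ ≤ 0.05 * Y := by linarith
    _ ≤ _ := h13

theorem pairs : ∀ᶠ u : ℕ in atTop, ∀ Q : Finset ℕ, Q.card = u ^ 9 →
    (∀ q ∈ Q, q.Prime ∧ u ^ 9 < q ∧ q ≤ u ^ 10) →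
    ∃ k : ℕ, 1 ≤ k ∧ k ≤ u ^ (100 * u ^ 7) ∧ (Q.filter (fun q => q ∣ k)).card < u ∧
      ∃ AA ⊆ Q.powersetCard (u ^ 7), (∀ A ∈ AA, ((∏ q ∈ A, q) * k + 1).Prime) ∧
        u ^ (u ^ 7 - 20) ≤ AA.card := by
  classical
  filter_upwards [mean, KS_lower, eventually_ge_atTop 100] with u h1 h2 hu Q hQc hQ
  have hu1 : 1 ≤ u := by omega
  have hur : (100 : ℝ) ≤ u := by exact_mod_cast hu
  set a : ℝ := (u : ℝ) with ha
  have ha1 : 1 ≤ a := by linarith
  have ha0 : 0 < a := by linarith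
  set X := XX u with hX
  have hX0 : 0 < X := by rw [hX]; unfold XX; positivity
  have h1' := h1 Q hQc hQ
  set P := powersetCard (u ^ 7) Q with hP
  set C : ℝ := ((u ^ 9).choose (u ^ 7) : ℝ) with hC
  have hPc : (P.card : ℝ) = C := by rw [hP, card_powersetCard, hQc]
  set G := P.filter (fun A => Err X (∏ q ∈ A, q) ≤ X / 20) with hG
  have hGc : C / 2 ≤ G.card := by
    have e1 := sum_filter_add_sum_filter_not P (fun A => Err X (∏ q ∈ A, q) ≤ X / 20)
      (fun A => Err X (∏ q ∈ A, q))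
    have e2 : 0 ≤ ∑ A ∈ P.filter (fun A => Err X (∏ q ∈ A, q) ≤ X / 20), Err X (∏ q ∈ A, q) :=
      sum_nonneg fun _ _ => Err_nonneg _ _
    have e3 : ((P.filter (fun A => ¬ Err X (∏ q ∈ A, q) ≤ X / 20)).card : ℝ) * (X / 20) ≤
        ∑ A ∈ P.filter (fun A => ¬ Err X (∏ q ∈ A, q) ≤ X / 20), Err X (∏ q ∈ A, q) := by
      rw [← nsmul_eq_mul, ← sum_const]
      apply sum_le_sum
      intro A hA
      rw [mem_filter] at hA
      exact (not_le.1 hA.2).le
    have e4 := card_filter_add_card_filter_not (s := P) (fun A => Err X (∏ q ∈ A, q) ≤ X / 20)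
    have e5 : (G.card : ℝ) + ((P.filter (fun A => ¬ Err X (∏ q ∈ A, q) ≤ X / 20)).card : ℝ) = C := by
      rw [← hPc, hG]
      exact_mod_cast e4
    have e6 : ((P.filter (fun A => ¬ Err X (∏ q ∈ A, q) ≤ X / 20)).card : ℝ) * (X / 20) ≤
        (C / 2) * (X / 20) := by
      calc _ ≤ C * (X / 40) := by linarith
        _ = _ := by ring
    have e7 := le_of_mul_le_mul_right e6 (by positivity)
    linarith
  set V : ℝ := a ^ (90 * u ^ 7) / (20 * a ^ 18) with hV
  have hV0 : 0 < V := by positivity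
  have h3 : ∀ A ∈ G, V ≤ (KS u Q (∏ q ∈ A, q)).card := by
    intro A hA
    rw [hG, mem_filter] at hA
    exact h2 Q hQc hQ A hA.1 hA.2
  have h4 : (C / 2) * V ≤ ∑ A ∈ G, ((KS u Q (∏ q ∈ A, q)).card : ℝ) := by
    calc (C / 2) * V ≤ G.card * V := mul_le_mul_of_nonneg_right hGc hV0.le
      _ = ∑ A ∈ G, V := by rw [sum_const, nsmul_eq_mul]
      _ ≤ _ := sum_le_sum h3
  set I := Icc 1 (u ^ (91 * u ^ 7)) with hI
  have h5 : ∑ A ∈ G, ((KS u Q (∏ q ∈ A, q)).card : ℝ) =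
      ∑ k ∈ I, ((G.filter (fun A => k ∈ KS u Q (∏ q ∈ A, q))).card : ℝ) := by
    have e1 : ∀ A ∈ G, ((KS u Q (∏ q ∈ A, q)).card : ℝ) =
        ∑ k ∈ I, if k ∈ KS u Q (∏ q ∈ A, q) then (1 : ℝ) else 0 := by
      intro A _
      rw [← sum_filter, sum_const, nsmul_eq_mul, mul_one]
      congr 2
      ext k
      rw [mem_filter]
      constructor
      · intro h
        refine ⟨?_, h⟩
        unfold KS at h
        exact (mem_filter.1 h).1
      · exact fun h => h.2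
    rw [sum_congr rfl e1, sum_comm]
    apply sum_congr rfl
    intro k _
    rw [← sum_filter, sum_const, nsmul_eq_mul, mul_one]
  have hIc : (I.card : ℝ) = a ^ (91 * u ^ 7) := by
    rw [hI, Nat.card_Icc, Nat.add_sub_cancel, ha]
    push_cast
    rfl
  have hIne : I.Nonempty := by
    rw [hI]
    exact ⟨1, mem_Icc.2 ⟨le_rfl, Nat.one_le_pow _ _ hu1⟩⟩
  obtain ⟨k, hkI, hk⟩ := exists_le_of_sum_le hIne (f := fun _ => (C / 2) * V / a ^ (91 * u ^ 7))
    (g := fun k => ((G.filter (fun A => k ∈ KS u Q (∏ q ∈ A, q))).card : ℝ)) (by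
      rw [sum_const, nsmul_eq_mul, hIc, ← h5]
      refine le_trans (le_of_eq ?_) h4
      field_simp)
  set AA := G.filter (fun A => k ∈ KS u Q (∏ q ∈ A, q)) with hAA
  have hCbig : a ^ (2 * u ^ 7) ≤ C := by
    have e1 := choose_bound' u (u ^ 7) hu1 le_rfl
    rw [Nat.sub_self, Nat.choose_zero_right, one_mul] at e1
    rw [hC, ha]
    exact_mod_cast e1
  have hj : 20 ≤ u ^ 7 := by
    calc 20 ≤ u := by omega
      _ = u ^ 1 := (pow_one u).symm
      _ ≤ u ^ 7 := Nat.pow_le_pow_right (by omega) (by norm_num)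
  have hAAc : a ^ (u ^ 7 - 20) ≤ AA.card := by
    refine le_trans ?_ hk
    show a ^ (u ^ 7 - 20) ≤ (C / 2) * V / a ^ (91 * u ^ 7)
    rw [le_div_iff₀ (by positivity), hV, mul_div_assoc', le_div_iff₀ (by positivity)]
    have e1 : 40 ≤ a ^ 2 := by nlinarith
    obtain ⟨m, hm⟩ : ∃ m, u ^ 7 = m + 20 := ⟨u ^ 7 - 20, by omega⟩
    rw [hm, Nat.add_sub_cancel]
    rw [hm] at hCbig
    calc a ^ m * a ^ (91 * (m + 20)) * (20 * a ^ 18) ≤
        a ^ m * a ^ (91 * (m + 20)) * ((a ^ 2 / 2) * a ^ 18) := by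
          gcongr
          linarith
      _ = a ^ (2 * (m + 20)) / 2 * a ^ (90 * (m + 20)) := by
          have e2 : a ^ (2 * (m + 20)) * a ^ (90 * (m + 20)) =
              a ^ m * a ^ (91 * (m + 20)) * (a ^ 2 * a ^ 18) := by
            have e3 : 2 * (m + 20) + 90 * (m + 20) = m + 91 * (m + 20) + (2 + 18) := by ring
            rw [← pow_add, e3, pow_add, pow_add, pow_add a 2 18]
          calc a ^ m * a ^ (91 * (m + 20)) * ((a ^ 2 / 2) * a ^ 18) =
              (a ^ m * a ^ (91 * (m + 20)) * (a ^ 2 * a ^ 18)) / 2 := by ring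
            _ = (a ^ (2 * (m + 20)) * a ^ (90 * (m + 20))) / 2 := by rw [e2]
            _ = _ := by ring
      _ ≤ C / 2 * a ^ (90 * (m + 20)) := by gcongr
  have hAAc' : u ^ (u ^ 7 - 20) ≤ AA.card := by
    rw [ha] at hAAc
    exact_mod_cast hAAc
  have hAAne : AA.Nonempty := by
    rw [← card_pos]
    exact lt_of_lt_of_le (Nat.pow_pos hu1) hAAc'
  have hmem : ∀ A ∈ AA, A ∈ P ∧ ((∏ q ∈ A, q) * k + 1).Prime ∧
      (Q.filter (fun q => q ∣ k)).card < u := by
    intro A hA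
    rw [hAA, mem_filter, hG, mem_filter] at hA
    have h6 := hA.2
    unfold KS at h6
    rw [mem_filter] at h6
    exact ⟨hA.1.1, h6.2.1, h6.2.2⟩
  rw [hI, mem_Icc] at hkI
  refine ⟨k, hkI.1, ?_, ?_, AA, fun A hA => (hmem A hA).1, fun A hA => (hmem A hA).2.1, hAAc'⟩
  · exact hkI.2.trans (Nat.pow_le_pow_right hu1 (by omega))
  · obtain ⟨A, hA⟩ := hAAne
    exact (hmem A hA).2.2

end Pool.Agent.E8helper15.AGP
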