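import Pool.Agent.E8helper15.AGP.Smooth
import Pool.Agent.E8helper15.AGP.Pairs2
import Pool.Agent.E8helper15.AGP.Final

set_option autoImplicit false

namespace Pool.Agent.E8helper15.AGP

open Finset Filter Topology

theorem main_carm : ∀ᶠ u : ℕ in atTop, ∃ n : ℕ, u < n ∧ ¬ n.Prime ∧ (1 - 1 / (u : ℝ)) * n ≤
    (((range n).filter (fun a => a ^ (n - 1) ≡ 1 [MOD n])).card : ℝ) := by
  filter_upwards [smooth_set, pairs, eventually_ge_atTop 100] with u h1 h2 hu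
  obtain ⟨Q, hQc, hQ, hsm⟩ := h1
  obtain ⟨k, hk1, hkX, hkQ, AA, hAA, hp, hcard⟩ := h2 Q hQc hQ
  exact carm u hu Q hQc hQ hsm k hk1 hkX hkQ AA hAA hp hcard

theorem main (ε : ℝ) (hε : 0 < ε) (N : ℕ) : ∃ n : ℕ, N < n ∧ 1 < n ∧ ¬ Nat.Prime n ∧
      (1 - ε) * (n : ℝ) <
        (((Finset.range n).filter (fun a => a ^ (n - 1) ≡ 1 [MOD n])).card : ℝ) := by
  obtain ⟨u, ⟨n, hn1, hn2, hn3⟩, hu1, hu2, hu3⟩ := (main_carm.and ((eventually_ge_atTop N).and
    ((eventually_ge_atTop 1).and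
      (tendsto_natCast_atTop_atTop.eventually_ge_atTop (2 / ε))))).exists
  refine ⟨n, by omega, by omega, hn2, lt_of_lt_of_le ?_ hn3⟩
  have hn0 : (0 : ℝ) < n := by
    have : 0 < n := by omega
    exact_mod_cast this
  have hu0 : (0 : ℝ) < u := by exact_mod_cast hu2
  apply mul_lt_mul_of_pos_right _ hn0
  have h1 : 1 / (u : ℝ) < ε := by
    rw [div_lt_iff₀ hu0]
    rw [div_le_iff₀ hε] at hu3
    nlinarith
  linarith

end Pool.Agent.E8helper15.AGP
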