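import Pool.Agent.E8helper15.AGP.Base
import Pool.Agent.E8helper15.AGP.Comb

set_option autoImplicit false

namespace Pool.Agent.E8helper15.AGP

open Finset Filter Topology Pool.Agent.H410R2 Pool.Agent.H398R2.BV

/-- the sum over the primitive characters of a conductor -/
noncomputable def Sf (X : ℝ) (f : ℕ) : ℝ := ∑ ψ ∈ Prim f, ‖psiLog X f ψ‖

theorem Sf_nonneg (X : ℝ) (f : ℕ) : 0 ≤ Sf X f := sum_nonneg fun _ _ => norm_nonneg _

/-- the error of a modulus -/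
noncomputable def Err (X : ℝ) (d : ℕ) : ℝ := ∑ f ∈ d.divisors.filter (fun f => f ≠ 1), Sf X f

theorem Err_nonneg (X : ℝ) (d : ℕ) : 0 ≤ Err X d := sum_nonneg fun _ _ => Sf_nonneg _ _

theorem prod_range {u : ℕ} {Q : Finset ℕ} (hQ : ∀ q ∈ Q, q.Prime ∧ u ^ 9 < q ∧ q ≤ u ^ 10)
    {i : ℕ} {B : Finset ℕ} (hB : B ∈ powersetCard i Q) :
    u ^ (9 * i) ≤ ∏ q ∈ B, q ∧ ∏ q ∈ B, q ≤ u ^ (10 * i) := by
  rw [mem_powersetCard] at hB
  constructor
  · have := pow_card_le_prod B (fun q => q) (u ^ 9) fun q hq => (hQ q (hB.1 hq)).2.1.le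
    rwa [hB.2, ← pow_mul] at this
  · have := prod_le_pow_card B (fun q => q) (u ^ 10) fun q hq => (hQ q (hB.1 hq)).2.2
    rwa [hB.2, ← pow_mul] at this

theorem to_range {u : ℕ} {Q : Finset ℕ} (hQ : ∀ q ∈ Q, q.Prime ∧ u ^ 9 < q ∧ q ≤ u ^ 10)
    (i : ℕ) (S : ℕ → ℝ) (hS : ∀ f, 0 ≤ S f) :
    ∑ B ∈ powersetCard i Q, S (∏ q ∈ B, q) ≤ ∑ f ∈ Icc (u ^ (9 * i)) (u ^ (10 * i)), S f := by
  classical
  have h1 : ∑ B ∈ powersetCard i Q, S (∏ q ∈ B, q) =
      ∑ f ∈ (powersetCard i Q).image (fun B => ∏ q ∈ B, q), S f := by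
    rw [sum_image]
    intro B hB C hC h
    rw [mem_coe, mem_powersetCard] at hB hC
    exact prod_injOn (fun q hq => (hQ q hq).1) hB.1 hC.1 h
  rw [h1]
  apply sum_le_sum_of_subset_of_nonneg
  · intro f hf
    rw [mem_image] at hf
    obtain ⟨B, hB, rfl⟩ := hf
    rw [mem_Icc]
    exact prod_range hQ hB
  · intro f _ _
    exact hS f

theorem large_block (u j i : ℕ) (hu : 2 ≤ u) (hi : 1 ≤ i) (hij : i ≤ j)
    (hL : 1 + Real.log ((u : ℝ) ^ (100 * j)) ≤ (u : ℝ) ^ 9) :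
    ∑ f ∈ Icc (u ^ (9 * i)) (u ^ (10 * i)), Sf ((u : ℝ) ^ (100 * j)) f ≤
      56 * (u : ℝ) ^ (45 + i + 100 * j) := by
  set a : ℝ := (u : ℝ) with ha
  set X : ℝ := a ^ (100 * j) with hX
  have ha1 : 1 ≤ a := by
    have : (2 : ℝ) ≤ a := by rw [ha]; exact_mod_cast hu
    linarith
  have ha0 : 0 < a := by linarith
  have hX1 : 1 ≤ X := one_le_pow₀ ha1
  have hX0 : 0 < X := by linarith
  set l := Real.log X with hl
  have hl0 : 0 ≤ l := Real.log_nonneg hX1
  have hG2 : 2 ≤ u ^ (9 * i) := by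
    calc 2 ≤ u := hu
      _ = u ^ 1 := (pow_one u).symm
      _ ≤ u ^ (9 * i) := Nat.pow_le_pow_right (by omega) (by omega)
  have hF1 : 1 ≤ u ^ (10 * i) := Nat.one_le_pow _ _ (by omega)
  have hW1 : 1 ≤ u ^ (20 * j) := Nat.one_le_pow _ _ (by omega)
  -- pass to the normalised sum
  have hA : ∑ f ∈ Icc (u ^ (9 * i)) (u ^ (10 * i)), Sf X f ≤
      a ^ (10 * i) * ∑ f ∈ Icc (u ^ (9 * i)) (u ^ (10 * i)),
        (1 / (Nat.totient f : ℝ)) * ∑ ψ ∈ Prim f, ‖psiLog X f ψ‖ := by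
    rw [mul_sum]
    apply sum_le_sum
    intro f hf
    rw [mem_Icc] at hf
    have hφ : (0 : ℝ) < Nat.totient f := by exact_mod_cast Nat.totient_pos.2 (by omega)
    have hφ2 : (Nat.totient f : ℝ) ≤ a ^ (10 * i) := by
      have : Nat.totient f ≤ u ^ (10 * i) := (Nat.totient_le f).trans hf.2
      rw [ha]
      exact_mod_cast this
    have h0 : 0 ≤ Sf X f := Sf_nonneg X f
    calc Sf X f = Nat.totient f * ((1 / (Nat.totient f : ℝ)) * Sf X f) := by field_simp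
      _ ≤ a ^ (10 * i) * ((1 / (Nat.totient f : ℝ)) * Sf X f) := by
          apply mul_le_mul_of_nonneg_right hφ2 (by positivity)
      _ = _ := rfl
  have hB := H343E.BVL.large X hX1 (u ^ (20 * j)) (u ^ (9 * i)) (u ^ (10 * i)) hW1 hG2 hF1
  have hsX : √X = a ^ (50 * j) := by
    rw [hX, show 100 * j = (50 * j) * 2 by ring, pow_mul, Real.sqrt_sq (by positivity)]
  have hsW : √(X / ((u ^ (20 * j) : ℕ) : ℝ)) = a ^ (40 * j) := by
    have : X / ((u ^ (20 * j) : ℕ) : ℝ) = (a ^ (40 * j)) ^ 2 := by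
      push_cast
      rw [← ha, hX, div_eq_iff (by positivity), ← pow_mul, ← pow_add]
      congr 1
      ring
    rw [this, Real.sqrt_sq (by positivity)]
  have hlogF : Real.log ((u ^ (10 * i) : ℕ) : ℝ) ≤ l := by
    rw [hl]
    apply Real.log_le_log (by exact_mod_cast hF1)
    push_cast
    rw [← ha, hX]
    apply pow_le_pow_right₀ ha1
    omega
  have hlogF0 : 0 ≤ Real.log ((u ^ (10 * i) : ℕ) : ℝ) := Real.log_natCast_nonneg _
  rw [hsX, hsW] at hB
  have hB2 : a ^ (10 * i) * (8 * ((u ^ (20 * j) : ℕ) : ℝ) ^ 2 * ((u ^ (10 * i) : ℕ) : ℝ) ^ 2 * l ^ 2) ≤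
      8 * a ^ (45 + i + 100 * j) := by
    have hl9 : l ≤ a ^ 9 := by linarith
    calc a ^ (10 * i) * (8 * ((u ^ (20 * j) : ℕ) : ℝ) ^ 2 * ((u ^ (10 * i) : ℕ) : ℝ) ^ 2 * l ^ 2)
        ≤ a ^ (10 * i) * (8 * ((u ^ (20 * j) : ℕ) : ℝ) ^ 2 * ((u ^ (10 * i) : ℕ) : ℝ) ^ 2 * (a ^ 9) ^ 2) := by
          gcongr
      _ = 8 * a ^ (18 + 30 * i + 40 * j) := by
          push_cast
          rw [← ha]
          rw [show 18 + 30 * i + 40 * j = 10 * i + (20 * j) * 2 + (10 * i) * 2 + 9 * 2 by ring,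
            pow_add, pow_add, pow_add, pow_mul, pow_mul a (20 * j) 2, pow_mul a (10 * i) 2,
            pow_mul a 9 2]
          ring
      _ ≤ 8 * a ^ (45 + i + 100 * j) := by
          apply mul_le_mul_of_nonneg_left _ (by norm_num)
          apply pow_le_pow_right₀ ha1
          omega
  have hB3 : a ^ (10 * i) * (12 * (1 + Real.log ((u ^ (10 * i) : ℕ) : ℝ)) *
      (a ^ (50 * j) / ((u ^ (9 * i) : ℕ) : ℝ) + (a ^ (40 * j) + a ^ (40 * j)) +
        ((u ^ (10 * i) : ℕ) : ℝ)) * (a ^ (50 * j) * (1 + l) ^ 3) * l) ≤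
      48 * a ^ (45 + i + 100 * j) := by
    have hl9 : l ≤ a ^ 9 := by linarith
    have e1 : 1 + Real.log ((u ^ (10 * i) : ℕ) : ℝ) ≤ a ^ 9 := by linarith
    calc a ^ (10 * i) * (12 * (1 + Real.log ((u ^ (10 * i) : ℕ) : ℝ)) *
      (a ^ (50 * j) / ((u ^ (9 * i) : ℕ) : ℝ) + (a ^ (40 * j) + a ^ (40 * j)) +
        ((u ^ (10 * i) : ℕ) : ℝ)) * (a ^ (50 * j) * (1 + l) ^ 3) * l) ≤
        a ^ (10 * i) * (12 * a ^ 9 *
      (a ^ (50 * j) / ((u ^ (9 * i) : ℕ) : ℝ) + (a ^ (40 * j) + a ^ (40 * j)) +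
        ((u ^ (10 * i) : ℕ) : ℝ)) * (a ^ (50 * j) * (a ^ 9) ^ 3) * a ^ 9) := by
          gcongr
      _ = 12 * (a ^ (45 + i + 100 * j) + 2 * a ^ (45 + 10 * i + 90 * j) + a ^ (45 + 20 * i + 50 * j)) := by
          push_cast
          rw [← ha]
          have f1 : a ^ (45 + i + 100 * j) = a ^ 45 * (a ^ (10 * i) / a ^ (9 * i)) * (a ^ (50 * j) * a ^ (50 * j)) := by
            rw [← pow_add a (50 * j), show 10 * i = i + 9 * i by ring, pow_add a i, mul_div_assoc,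
              div_self (by positivity), mul_one, ← pow_add, ← pow_add]
            congr 1
            ring
          have f2 : a ^ (45 + 10 * i + 90 * j) = a ^ 45 * a ^ (10 * i) * (a ^ (40 * j) * a ^ (50 * j)) := by
            rw [← pow_add, ← pow_add, ← pow_add]
            congr 1
            ring
          have f3 : a ^ (45 + 20 * i + 50 * j) = a ^ 45 * (a ^ (10 * i) * a ^ (10 * i)) * a ^ (50 * j) := by
            rw [← pow_add, ← pow_add, ← pow_add]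
            congr 1
            ring
          rw [f1, f2, f3]
          ring
      _ ≤ 12 * (a ^ (45 + i + 100 * j) + 2 * a ^ (45 + i + 100 * j) + a ^ (45 + i + 100 * j)) := by
          have g1 : a ^ (45 + 10 * i + 90 * j) ≤ a ^ (45 + i + 100 * j) :=
            pow_le_pow_right₀ ha1 (by omega)
          have g2 : a ^ (45 + 20 * i + 50 * j) ≤ a ^ (45 + i + 100 * j) :=
            pow_le_pow_right₀ ha1 (by omega)
          linarith
      _ = _ := by ring
  refine hA.trans ?_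
  calc a ^ (10 * i) * ∑ f ∈ Icc (u ^ (9 * i)) (u ^ (10 * i)),
        (1 / (Nat.totient f : ℝ)) * ∑ ψ ∈ Prim f, ‖psiLog X f ψ‖ ≤ _ :=
        mul_le_mul_of_nonneg_left hB (by positivity)
    _ ≤ _ := by
        rw [mul_add]
        refine (add_le_add hB2 hB3).trans (le_of_eq ?_)
        ring

theorem small_block (u j i : ℕ) (hu : 2 ≤ u) (hi : 1 ≤ i) (hi2 : i ≤ 59) {Q : Finset ℕ}
    (hQc : Q.card = u ^ 9) (hQ : ∀ q ∈ Q, q.Prime ∧ u ^ 9 < q ∧ q ≤ u ^ 10)
    (hL : (u : ℝ) ^ 7 ≤ Real.log ((u : ℝ) ^ (100 * j)))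
    (hsw : ∀ q : ℕ, 1 < q → (q : ℝ) ≤ (Real.log ((u : ℝ) ^ (100 * j))) ^ 85 →
      ∀ χ : DirichletCharacter ℂ q, χ.IsPrimitive →
      ‖psiLog ((u : ℝ) ^ (100 * j)) q χ‖ ≤
        ((u : ℝ) ^ (100 * j)) / (Real.log ((u : ℝ) ^ (100 * j))) ^ 145) :
    ∑ B ∈ powersetCard i Q, Sf ((u : ℝ) ^ (100 * j)) (∏ q ∈ B, q) ≤
      (u : ℝ) ^ (19 * i + 100 * j) / (u : ℝ) ^ 1015 := by
  set a : ℝ := (u : ℝ) with ha
  set X : ℝ := a ^ (100 * j) with hX
  have ha1 : 1 ≤ a := by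
    have : (2 : ℝ) ≤ a := by rw [ha]; exact_mod_cast hu
    linarith
  have ha0 : 0 < a := by linarith
  have hX0 : 0 < X := by positivity
  set l := Real.log X with hl
  have hl0 : 0 < l := lt_of_lt_of_le (by positivity) hL
  have h1 : ∀ B ∈ powersetCard i Q, Sf X (∏ q ∈ B, q) ≤ a ^ (10 * i) * (X / a ^ 1015) := by
    intro B hB
    have hr := prod_range hQ hB
    set f := ∏ q ∈ B, q with hf
    have hf1 : 1 < f := by
      have : 2 ≤ u ^ (9 * i) := by
        calc 2 ≤ u := hu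
          _ = u ^ 1 := (pow_one u).symm
          _ ≤ u ^ (9 * i) := Nat.pow_le_pow_right (by omega) (by omega)
      omega
    have hfr : (f : ℝ) ≤ a ^ (10 * i) := by
      rw [ha]; exact_mod_cast hr.2
    have hfl : (f : ℝ) ≤ l ^ 85 := by
      calc (f : ℝ) ≤ a ^ (10 * i) := hfr
        _ ≤ a ^ (7 * 85) := pow_le_pow_right₀ ha1 (by omega)
        _ = (a ^ 7) ^ 85 := by rw [pow_mul]
        _ ≤ l ^ 85 := by gcongr
    have hb : ∀ ψ ∈ Prim f, ‖psiLog X f ψ‖ ≤ X / a ^ 1015 := by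
      intro ψ hψ
      have hp : ψ.IsPrimitive := by
        classical
        unfold Prim at hψ
        rw [mem_filter] at hψ
        exact hψ.2
      refine (hsw f hf1 hfl ψ hp).trans ?_
      apply div_le_div_of_nonneg_left hX0.le (by positivity)
      calc a ^ 1015 = (a ^ 7) ^ 145 := by rw [← pow_mul]
        _ ≤ l ^ 145 := by gcongr
    calc Sf X f ≤ ∑ ψ ∈ Prim f, X / a ^ 1015 := sum_le_sum hb
      _ = (Prim f).card * (X / a ^ 1015) := by rw [sum_const, nsmul_eq_mul]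
      _ ≤ a ^ (10 * i) * (X / a ^ 1015) := by
          apply mul_le_mul_of_nonneg_right _ (by positivity)
          calc ((Prim f).card : ℝ) ≤ Nat.totient f := card_prim_le (by omega)
            _ ≤ f := by exact_mod_cast Nat.totient_le f
            _ ≤ _ := hfr
  calc ∑ B ∈ powersetCard i Q, Sf X (∏ q ∈ B, q) ≤
      ∑ B ∈ powersetCard i Q, a ^ (10 * i) * (X / a ^ 1015) := sum_le_sum h1
    _ = ((powersetCard i Q).card : ℝ) * (a ^ (10 * i) * (X / a ^ 1015)) := by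
        rw [sum_const, nsmul_eq_mul]
    _ ≤ a ^ (9 * i) * (a ^ (10 * i) * (X / a ^ 1015)) := by
        apply mul_le_mul_of_nonneg_right _ (by positivity)
        rw [card_powersetCard, hQc]
        have := Nat.choose_le_pow (u ^ 9) i
        rw [← pow_mul] at this
        rw [ha]
        exact_mod_cast this
    _ = a ^ (19 * i + 100 * j) / a ^ 1015 := by
        rw [hX, show 19 * i + 100 * j = 9 * i + 10 * i + 100 * j by ring, pow_add, pow_add]
        ring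

/-- the parameters -/
noncomputable def XX (u : ℕ) : ℝ := (u : ℝ) ^ (100 * u ^ 7)

theorem log_XX (u : ℕ) : Real.log (XX u) = 100 * (u : ℝ) ^ 7 * Real.log u := by
  unfold XX
  rw [Real.log_pow]
  push_cast
  ring

theorem log_XX_bounds : ∀ᶠ u : ℕ in atTop, (u : ℝ) ^ 7 ≤ Real.log (XX u) ∧
    1 + Real.log (XX u) ≤ (u : ℝ) ^ 9 := by
  have tl : Tendsto (fun u : ℕ => Real.log u) atTop atTop :=
    Real.tendsto_log_atTop.comp tendsto_natCast_atTop_atTop
  filter_upwards [tl.eventually_ge_atTop 1, eventually_ge_atTop 101] with u h1 h2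
  have hu : (101 : ℝ) ≤ u := by exact_mod_cast h2
  rw [log_XX]
  have h3 : Real.log u ≤ u := (Real.log_le_sub_one_of_pos (by linarith)).trans (by linarith)
  have h4 : (1 : ℝ) ≤ (u : ℝ) ^ 7 := one_le_pow₀ (by linarith)
  constructor
  · nlinarith
  · have e1 : 100 * (u : ℝ) ^ 7 * Real.log u ≤ 100 * (u : ℝ) ^ 7 * u :=
      mul_le_mul_of_nonneg_left h3 (by positivity)
    have e2 : 101 * (u : ℝ) ^ 8 ≤ (u : ℝ) ^ 9 := by
      have : (u : ℝ) ^ 9 = u * (u : ℝ) ^ 8 := by ring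
      rw [this]
      exact mul_le_mul_of_nonneg_right hu (by positivity)
    have e3 : (1 : ℝ) ≤ (u : ℝ) ^ 8 := one_le_pow₀ (by linarith)
    have e4 : 100 * (u : ℝ) ^ 7 * u = 100 * (u : ℝ) ^ 8 := by ring
    linarith

theorem tendsto_XX : Tendsto XX atTop atTop := by
  apply tendsto_atTop_mono' atTop (f₁ := fun u : ℕ => (u : ℝ)) _ tendsto_natCast_atTop_atTop
  filter_upwards [eventually_ge_atTop 1] with u hu
  have h1 : (1 : ℝ) ≤ u := by exact_mod_cast hu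
  unfold XX
  calc (u : ℝ) = (u : ℝ) ^ 1 := (pow_one _).symm
    _ ≤ _ := pow_le_pow_right₀ h1 (by
      have := Nat.one_le_pow 7 u (by omega)
      omega)

/-- The mean value theorem for the products of `u ^ 7` primes. -/
theorem mean : ∀ᶠ u : ℕ in atTop, ∀ Q : Finset ℕ, Q.card = u ^ 9 →
    (∀ q ∈ Q, q.Prime ∧ u ^ 9 < q ∧ q ≤ u ^ 10) →
    ∑ A ∈ powersetCard (u ^ 7) Q, Err (XX u) (∏ q ∈ A, q) ≤
      ((u ^ 9).choose (u ^ 7) : ℝ) * (XX u / 40) := by
  obtain ⟨x₀, hx₀⟩ := H343E.sw 145 85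
  filter_upwards [tendsto_XX.eventually_ge_atTop x₀, log_XX_bounds, eventually_ge_atTop 100]
    with u h1 h2 hu Q hQc hQ
  have hur : (100 : ℝ) ≤ u := by exact_mod_cast hu
  have hsw := hx₀ (XX u) h1
  set a : ℝ := (u : ℝ) with ha
  have ha1 : 1 ≤ a := by linarith
  have ha0 : 0 < a := by linarith
  set X := XX u with hX
  have hX0 : 0 < X := by rw [hX]; unfold XX; positivity
  have hXe : X = a ^ (100 * u ^ 7) := rfl
  have h3 : ∑ A ∈ powersetCard (u ^ 7) Q, Err X (∏ q ∈ A, q) ≤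
      ∑ i ∈ Icc 1 (u ^ 7), ((Q.card - i).choose (u ^ 7 - i) : ℝ) *
        ∑ B ∈ powersetCard i Q, Sf X (∏ q ∈ B, q) := by
    refine le_trans ?_ (avg Q (u ^ 7) (fun B => Sf X (∏ q ∈ B, q)) fun B => Sf_nonneg _ _)
    apply sum_le_sum
    intro A hA
    rw [mem_powersetCard] at hA
    exact divisors_le (fun q hq => (hQ q (hA.1 hq)).1) (Sf X) (Sf_nonneg X)
  refine h3.trans ?_
  have h4 : ∀ i ∈ Icc 1 (u ^ 7), ((Q.card - i).choose (u ^ 7 - i) : ℝ) *
        ∑ B ∈ powersetCard i Q, Sf X (∏ q ∈ B, q) ≤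
        ((u ^ 9).choose (u ^ 7) : ℝ) * (56 * X / a ^ 12) := by
    intro i hi
    rw [mem_Icc] at hi
    have h5 : ∑ B ∈ powersetCard i Q, Sf X (∏ q ∈ B, q) ≤ a ^ (2 * i) * (56 * X / a ^ 12) := by
      by_cases hi2 : i ≤ 59
      · have h6 := small_block u (u ^ 7) i (by omega) hi.1 hi2 hQc hQ h2.1 hsw
        refine h6.trans ?_
        rw [← ha, pow_add, ← hXe, mul_div_assoc']
        rw [div_le_div_iff₀ (by positivity) (by positivity)]
        have h7 : a ^ (19 * i) * a ^ 12 ≤ a ^ (2 * i) * a ^ 1015 := by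
          rw [← pow_add, ← pow_add]
          exact pow_le_pow_right₀ ha1 (by omega)
        have h8 : 0 ≤ a ^ (2 * i) * a ^ 1015 := by positivity
        calc a ^ (19 * i) * X * a ^ 12 = (a ^ (19 * i) * a ^ 12) * X := by ring
          _ ≤ (a ^ (2 * i) * a ^ 1015) * X := mul_le_mul_of_nonneg_right h7 hX0.le
          _ ≤ 56 * ((a ^ (2 * i) * a ^ 1015) * X) := by nlinarith [mul_nonneg h8 hX0.le]
          _ = _ := by ring
      · have h6 := large_block u (u ^ 7) i (by omega) hi.1 hi.2 h2.2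
        have h7 := to_range hQ i (Sf X) (Sf_nonneg X)
        refine (h7.trans h6).trans ?_
        rw [← ha, pow_add, ← hXe, mul_div_assoc', le_div_iff₀ (by positivity)]
        have h8 : a ^ (45 + i) * a ^ 12 ≤ a ^ (2 * i) := by
          rw [← pow_add]
          exact pow_le_pow_right₀ ha1 (by omega)
        calc 56 * (a ^ (45 + i) * X) * a ^ 12 = 56 * X * (a ^ (45 + i) * a ^ 12) := by ring
          _ ≤ 56 * X * a ^ (2 * i) := mul_le_mul_of_nonneg_left h8 (by positivity)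
          _ = _ := by ring
    have h9 := choose_bound' u i (by omega) hi.2
    have h10 : ((Q.card - i).choose (u ^ 7 - i) : ℝ) * a ^ (2 * i) ≤
        ((u ^ 9).choose (u ^ 7) : ℝ) := by
      rw [hQc, ha]
      exact_mod_cast h9
    calc ((Q.card - i).choose (u ^ 7 - i) : ℝ) *
        ∑ B ∈ powersetCard i Q, Sf X (∏ q ∈ B, q) ≤
        ((Q.card - i).choose (u ^ 7 - i) : ℝ) * (a ^ (2 * i) * (56 * X / a ^ 12)) :=
          mul_le_mul_of_nonneg_left h5 (Nat.cast_nonneg _)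
      _ = (((Q.card - i).choose (u ^ 7 - i) : ℝ) * a ^ (2 * i)) * (56 * X / a ^ 12) := by ring
      _ ≤ _ := mul_le_mul_of_nonneg_right h10 (by positivity)
  refine (sum_le_sum h4).trans ?_
  rw [sum_const, nsmul_eq_mul, Nat.card_Icc, Nat.add_sub_cancel]
  have h11 : ((u ^ 7 : ℕ) : ℝ) * (56 * X / a ^ 12) ≤ X / 40 := by
    push_cast
    rw [← ha, mul_div_assoc', div_le_div_iff₀ (by positivity) (by norm_num)]
    have h12 : 2240 * a ^ 7 ≤ a ^ 12 := by
      have : a ^ 12 = a ^ 5 * a ^ 7 := by ring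
      rw [this]
      apply mul_le_mul_of_nonneg_right _ (by positivity)
      calc (2240 : ℝ) ≤ 100 ^ 5 := by norm_num
        _ ≤ a ^ 5 := by gcongr
    calc a ^ 7 * (56 * X) * 40 = (2240 * a ^ 7) * X := by ring
      _ ≤ a ^ 12 * X := mul_le_mul_of_nonneg_right h12 hX0.le
      _ = _ := by ring
  calc ((u ^ 7 : ℕ) : ℝ) * (((u ^ 9).choose (u ^ 7) : ℝ) * (56 * X / a ^ 12)) =
      ((u ^ 9).choose (u ^ 7) : ℝ) * (((u ^ 7 : ℕ) : ℝ) * (56 * X / a ^ 12)) := by ring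
    _ ≤ _ := mul_le_mul_of_nonneg_left h11 (Nat.cast_nonneg _)

end Pool.Agent.E8helper15.AGP
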