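import Pool.Agent.H343R2.EH.Pointwise
import Pool.Agent.H343R2.EH.Inter
import Pool.Agent.E8helper15.AGP.Mean

set_option autoImplicit false

namespace Pool.Agent.E8helper15.AGP

open Finset Filter Topology Pool.Agent.H410R2 Pool.Agent.H398R2.BV

theorem psiLog1_lower : ∀ᶠ X : ℝ in atTop, X / 5 ≤ psiLog1 X := by
  have h0 : Tendsto (fun X : ℝ => X / 2) atTop atTop := tendsto_id.atTop_div_const (by norm_num)
  filter_upwards [h0.eventually psi_lower, eventually_ge_atTop (2 : ℝ)] with X h1 h2
  have h3 : Real.log 2 * Chebyshev.psi (X / 2) ≤ psiLog1 X := by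
    rw [← psi1_eq_psi]
    unfold H343E.psi1 psiLog1
    rw [mul_sum]
    calc ∑ n ∈ Icc 1 ⌊X / 2⌋₊, Real.log 2 * ArithmeticFunction.vonMangoldt n ≤
        ∑ n ∈ Icc 1 ⌊X / 2⌋₊, ArithmeticFunction.vonMangoldt n * Real.log (X / n) := by
          apply sum_le_sum
          intro n hn
          rw [mem_Icc] at hn
          rw [mul_comm]
          apply mul_le_mul_of_nonneg_left _ ArithmeticFunction.vonMangoldt_nonneg
          apply Real.log_le_log (by norm_num)
          have hn1 : (0 : ℝ) < n := by exact_mod_cast hn.1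
          rw [le_div_iff₀ hn1]
          have := (Nat.le_floor_iff (by linarith : (0 : ℝ) ≤ X / 2)).1 hn.2
          linarith
      _ ≤ _ := by
          apply sum_le_sum_of_subset_of_nonneg
          · intro n hn
            rw [mem_Icc] at hn ⊢
            refine ⟨hn.1, hn.2.trans (Nat.floor_mono (by linarith))⟩
          · intro n hn _
            rw [mem_Icc] at hn
            apply mul_nonneg ArithmeticFunction.vonMangoldt_nonneg
            apply Real.log_nonneg
            have hn1 : (0 : ℝ) < n := by exact_mod_cast hn.1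
            rw [le_div_iff₀ hn1, one_mul]
            exact (Nat.le_floor_iff (by linarith : (0 : ℝ) ≤ X)).1 hn.2
  have h4 : (0.6931471803 : ℝ) < Real.log 2 := Real.log_two_gt_d9
  have h5 : 0 ≤ Chebyshev.psi (X / 2) := Chebyshev.psi_nonneg _
  nlinarith

theorem AP_lower (X : ℝ) (hX : 1 ≤ X) (d : ℕ) (hd : 1 ≤ d) :
    psiLog1 X / (Nat.totient d : ℝ) - Err X d / (Nat.totient d : ℝ) -
      2 * d.primeFactors.card * Real.log X ^ 2 ≤ psiLogAP X d 1 := by
  have : NeZero d := ⟨by omega⟩
  have h1 := H343E.pointwise X hX d d 1 (Nat.coprime_one_left d)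
  have h2 := H343E.InterC.SS_le X hX d d
  have h3 : H343E.VV X d d 1 = 0 := by
    unfold H343E.VV
    have : H343E.largeC d d = ∅ := by
      rw [eq_empty_iff_forall_notMem]
      intro χ hχ
      rw [H343E.InterC.mem_largeC] at hχ
      have h4 := Nat.le_of_dvd (by omega) χ.conductor_dvd_level
      omega
    rw [this, sum_empty, mul_zero]
  rw [h3, norm_zero] at h1
  have hφ : (0 : ℝ) < Nat.totient d := by exact_mod_cast Nat.totient_pos.2 (by omega)
  have h4 : (1 / (Nat.totient d : ℝ)) *
      (∑ f ∈ d.divisors.filter (fun f => f ≠ 1),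
        if f ≤ d then ∑ ψ ∈ Prim f, ‖psiLog X f ψ‖ else 0) ≤ Err X d / (Nat.totient d : ℝ) := by
    rw [div_eq_inv_mul (Err X d), one_div]
    apply mul_le_mul_of_nonneg_left _ (by positivity)
    unfold Err
    apply sum_le_sum
    intro f _
    split_ifs
    · exact le_rfl
    · exact Sf_nonneg X f
  have h5 := neg_abs_le (psiLogAP X d 1 - psiLog1 X / (Nat.totient d : ℝ))
  linarith

/-- primes `≡ 1 mod d` -/
def PA (N d : ℕ) : Finset ℕ := (Icc 1 N).filter (fun p => p.Prime ∧ p ≡ 1 [MOD d])

theorem AP_upper (N d : ℕ) (hN : 1 ≤ N) :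
    psiLogAP (N : ℝ) d 1 ≤ Real.log N * (Real.log N * (PA N d).card + 2 * √(N : ℝ) * Real.log N) := by
  have hNr : (1 : ℝ) ≤ N := by exact_mod_cast hN
  have hl : 0 ≤ Real.log N := Real.log_nonneg hNr
  have h0 := Chebyshev.psi_sub_theta_le hNr
  rw [Chebyshev.psi_sub_theta_eq_sum_not_prime, Nat.floor_natCast] at h0
  have h3 : Ioc 0 N = Icc 1 N := by
    ext n; rw [mem_Ioc, mem_Icc]; omega
  rw [h3, sum_filter] at h0
  have h1 : psiLogAP (N : ℝ) d 1 ≤ Real.log N * (∑ n ∈ Icc 1 N,
      ((if n ∈ PA N d then Real.log N else 0) +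
        (if ¬ n.Prime then ArithmeticFunction.vonMangoldt n else 0))) := by
    unfold psiLogAP
    rw [Nat.floor_natCast, sum_filter, mul_sum]
    apply sum_le_sum
    intro n hn
    rw [mem_Icc] at hn
    have hn1 : (1 : ℝ) ≤ n := by exact_mod_cast hn.1
    have hnN : (n : ℝ) ≤ N := by exact_mod_cast hn.2
    have hΛ : 0 ≤ ArithmeticFunction.vonMangoldt n := ArithmeticFunction.vonMangoldt_nonneg
    have hlog : Real.log (N / n) ≤ Real.log N := by
      apply Real.log_le_log (by positivity)
      exact div_le_self (by linarith) hn1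
    have hpos2 : 0 ≤ (if ¬ n.Prime then ArithmeticFunction.vonMangoldt n else 0) := by
      by_cases h : ¬ n.Prime
      · rw [if_pos h]; exact hΛ
      · rw [if_neg h]
    have hpos1 : 0 ≤ (if n ∈ PA N d then Real.log (N : ℝ) else 0) := by
      by_cases h : n ∈ PA N d
      · rw [if_pos h]; exact hl
      · rw [if_neg h]
    by_cases hm : n ≡ 1 [MOD d]
    · rw [if_pos hm]
      have h4 : ArithmeticFunction.vonMangoldt n * Real.log (N / n) ≤
          Real.log N * ArithmeticFunction.vonMangoldt n := by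
        rw [mul_comm]
        exact mul_le_mul_of_nonneg_right hlog hΛ
      refine h4.trans ?_
      apply mul_le_mul_of_nonneg_left _ hl
      by_cases hp : n.Prime
      · have h5 : n ∈ PA N d := by
          unfold PA
          rw [mem_filter, mem_Icc]
          exact ⟨hn, hp, hm⟩
        rw [if_pos h5, if_neg (not_not.mpr hp), add_zero, ArithmeticFunction.vonMangoldt_apply_prime hp]
        exact Real.log_le_log (by linarith) hnN
      · rw [if_pos hp]
        linarith
    · rw [if_neg hm]
      exact mul_nonneg hl (add_nonneg hpos1 hpos2)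
  refine h1.trans ?_
  apply mul_le_mul_of_nonneg_left _ hl
  rw [sum_add_distrib]
  apply add_le_add _ h0
  rw [← sum_filter, sum_const, nsmul_eq_mul, mul_comm]
  apply mul_le_mul_of_nonneg_left _ hl
  have : ((Icc 1 N).filter (fun n => n ∈ PA N d)).card ≤ (PA N d).card := by
    apply card_le_card
    intro n hn
    exact (mem_filter.1 hn).2
  exact_mod_cast this

/-- few integers have many prime factors in `Q` -/
theorem bad_count {u N : ℕ} (hu : 1 ≤ u) {Q : Finset ℕ} (hQc : Q.card = u ^ 9)
    (hQ : ∀ q ∈ Q, q.Prime ∧ u ^ 9 < q ∧ q ≤ u ^ 10) :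
    (((Icc 1 N).filter (fun k => u ≤ (Q.filter (fun q => q ∣ k)).card)).card : ℝ) ≤
      N / (u.factorial : ℝ) := by
  classical
  have h1 : (Icc 1 N).filter (fun k => u ≤ (Q.filter (fun q => q ∣ k)).card) ⊆
      (powersetCard u Q).biUnion (fun B => (Ioc 0 N).filter (fun k => (∏ q ∈ B, q) ∣ k)) := by
    intro k hk
    rw [mem_filter, mem_Icc] at hk
    obtain ⟨B, hB, hBc⟩ := exists_subset_card_eq hk.2
    rw [mem_biUnion]
    refine ⟨B, ?_, ?_⟩
    · rw [mem_powersetCard]
      exact ⟨hB.trans (filter_subset _ _), hBc⟩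
    · rw [mem_filter, mem_Ioc]
      refine ⟨⟨by omega, hk.1.2⟩, ?_⟩
      apply prod_primes_dvd
      · intro q hq
        exact (hQ q (mem_filter.1 (hB hq)).1).1.prime
      · intro q hq
        exact (mem_filter.1 (hB hq)).2
  have h2 : (((Icc 1 N).filter (fun k => u ≤ (Q.filter (fun q => q ∣ k)).card)).card : ℝ) ≤
      ∑ B ∈ powersetCard u Q, (((Ioc 0 N).filter (fun k => (∏ q ∈ B, q) ∣ k)).card : ℝ) := by
    exact_mod_cast (card_le_card h1).trans card_biUnion_le
  refine h2.trans ?_
  have hu9 : (0 : ℝ) < ((u : ℝ) ^ 9) ^ u := by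
    have : (1 : ℝ) ≤ u := by exact_mod_cast hu
    positivity
  have h3 : ∀ B ∈ powersetCard u Q, (((Ioc 0 N).filter (fun k => (∏ q ∈ B, q) ∣ k)).card : ℝ) ≤
      N / ((u : ℝ) ^ 9) ^ u := by
    intro B hB
    rw [Nat.Ioc_filter_dvd_card_eq_div]
    refine Nat.cast_div_le.trans ?_
    apply div_le_div_of_nonneg_left (Nat.cast_nonneg N) hu9
    have := (prod_range hQ hB).1
    rw [pow_mul] at this
    exact_mod_cast this
  refine (sum_le_sum h3).trans ?_
  rw [sum_const, nsmul_eq_mul, card_powersetCard, hQc]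
  have h4 := Nat.choose_le_pow_div (α := ℝ) u (u ^ 9)
  push_cast at h4
  have hf : (0 : ℝ) < u.factorial := by exact_mod_cast Nat.factorial_pos u
  calc ((u ^ 9).choose u : ℝ) * (N / ((u : ℝ) ^ 9) ^ u) ≤
      (((u : ℝ) ^ 9) ^ u / u.factorial) * (N / ((u : ℝ) ^ 9) ^ u) :=
        mul_le_mul_of_nonneg_right h4 (by positivity)
    _ = N / (u.factorial : ℝ) := by
        field_simp

end Pool.Agent.E8helper15.AGP
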