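import Pool.Agent.E8helper15.AGP.Base

set_option autoImplicit false

namespace Pool.Agent.E8helper15.AGP

open Finset Filter Topology

/-- primes in `(y, 8y]` -/
def PP (y : ℕ) : Finset ℕ := (Ioc y (8 * y)).filter Nat.Prime

theorem mem_PP {y l : ℕ} : l ∈ PP y ↔ (y < l ∧ l ≤ 8 * y) ∧ l.Prime := by
  unfold PP
  rw [mem_filter, mem_Ioc]

theorem card_PP : ∀ᶠ y : ℕ in atTop, (3.9 : ℝ) * y ≤ (PP y).card * Real.log (8 * y) := by
  have h0 : Tendsto (fun y : ℕ => (8 * (y : ℝ))) atTop atTop :=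
    Tendsto.const_mul_atTop (by norm_num) tendsto_natCast_atTop_atTop
  filter_upwards [h0.eventually theta_lower, eventually_ge_atTop 1] with y h1 hy
  have hy' : (1 : ℝ) ≤ y := by exact_mod_cast hy
  have h2 : Chebyshev.theta y ≤ Real.log 4 * y := Chebyshev.theta_le_log4_mul_x (by positivity)
  have h3 : Real.log 4 ≤ 1.3863 := by
    have : (4 : ℝ) = 2 ^ 2 := by norm_num
    rw [this, Real.log_pow]
    have := Real.log_two_lt_d9
    push_cast
    linarith
  have h4 : Chebyshev.theta (8 * y) = Chebyshev.theta y + ∑ p ∈ PP y, Real.log p := by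
    have h5 : ((8 : ℝ) * y) = ((8 * y : ℕ) : ℝ) := by push_cast; ring
    rw [h5]
    unfold Chebyshev.theta PP
    rw [Nat.floor_natCast, Nat.floor_natCast, sum_filter, sum_filter, sum_filter,
      sum_Ioc_consecutive _ (Nat.zero_le y) (by omega)]
  have h5 : ∑ p ∈ PP y, Real.log p ≤ (PP y).card * Real.log (8 * y) := by
    calc ∑ p ∈ PP y, Real.log p ≤ ∑ p ∈ PP y, Real.log (8 * y) := by
          apply sum_le_sum
          intro p hp
          rw [mem_PP] at hp
          apply Real.log_le_log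
          · exact_mod_cast hp.2.pos
          · exact_mod_cast hp.1.2
      _ = _ := by rw [sum_const, nsmul_eq_mul]
  nlinarith

theorem count_le {u n : ℕ} (hu : 2 ≤ u) (hn2 : 2 ≤ n) (hn : n ≤ u ^ 10) :
    ((PP (u ^ 4)).filter (fun l => n ≡ 1 [MOD l])).card ≤ 2 := by
  set S := (PP (u ^ 4)).filter (fun l => n ≡ 1 [MOD l]) with hS
  have h1 : ∏ l ∈ S, l ∣ n - 1 := by
    apply prod_primes_dvd
    · intro l hl
      rw [hS, mem_filter, mem_PP] at hl
      exact hl.1.2.prime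
    · intro l hl
      rw [hS, mem_filter] at hl
      exact (Nat.modEq_iff_dvd' (by omega)).1 hl.2.symm
  have h2 : (u ^ 4) ^ S.card ≤ ∏ l ∈ S, l := by
    apply pow_card_le_prod S (fun l => l) (u ^ 4)
    intro l hl
    rw [hS, mem_filter, mem_PP] at hl
    exact hl.1.1.1.le
  have h3 := Nat.le_of_dvd (by omega) h1
  have h4 : (u ^ 4) ^ S.card < u ^ 10 := by omega
  rw [← pow_mul] at h4
  have h5 := (Nat.pow_lt_pow_iff_right (by omega : 1 < u)).1 h4
  omega

/-- the good primes -/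
def Good (u : ℕ) : Finset ℕ :=
  (Icc 1 (u ^ 10)).filter (fun q => q.Prime ∧ ∃ l ∈ PP (u ^ 4), l ∣ q - 1)

theorem good_count (u : ℕ) (hu : 2 ≤ u) :
    ∑ l ∈ PP (u ^ 4), H343E.psiAP ((u ^ 10 : ℕ) : ℝ) l 1 ≤
      2 * ((Good u).card * Real.log ((u ^ 10 : ℕ) : ℝ) +
        (Chebyshev.psi ((u ^ 10 : ℕ) : ℝ) - Chebyshev.theta ((u ^ 10 : ℕ) : ℝ))) := by
  set z := u ^ 10 with hz
  have h1 : ∑ l ∈ PP (u ^ 4), H343E.psiAP (z : ℝ) l 1 =
      ∑ n ∈ Icc 1 z, ArithmeticFunction.vonMangoldt n *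
        (((PP (u ^ 4)).filter (fun l => n ≡ 1 [MOD l])).card : ℝ) := by
    unfold H343E.psiAP
    simp only [Nat.floor_natCast, sum_filter]
    rw [sum_comm]
    apply sum_congr rfl
    intro n _
    rw [← sum_filter, sum_const, nsmul_eq_mul, mul_comm]
  rw [h1, Chebyshev.psi_sub_theta_eq_sum_not_prime, Nat.floor_natCast]
  have h2 : (Good u).card * Real.log (z : ℝ) =
      ∑ n ∈ Icc 1 z, if n ∈ Good u then Real.log (z : ℝ) else 0 := by
    rw [← sum_filter, sum_const, nsmul_eq_mul]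
    congr 3
    ext n
    rw [mem_filter]
    constructor
    · intro h
      refine ⟨?_, h⟩
      unfold Good at h
      exact (mem_filter.1 h).1
    · exact fun h => h.2
  have h3 : Ioc 0 z = Icc 1 z := by
    ext n; rw [mem_Ioc, mem_Icc]; omega
  rw [h2, h3, sum_filter, ← sum_add_distrib, mul_sum]
  apply sum_le_sum
  intro n hn
  rw [mem_Icc] at hn
  have hL : 0 ≤ Real.log (z : ℝ) := Real.log_natCast_nonneg z
  have hΛ : 0 ≤ ArithmeticFunction.vonMangoldt n := ArithmeticFunction.vonMangoldt_nonneg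
  rcases Nat.lt_or_ge n 2 with h | h
  · have : n = 1 := by omega
    subst this
    rw [ArithmeticFunction.vonMangoldt_apply_one, zero_mul]
    split_ifs <;> positivity
  · have hc := count_le hu h hn.2
    have hc' : (((PP (u ^ 4)).filter (fun l => n ≡ 1 [MOD l])).card : ℝ) ≤ 2 := by
      exact_mod_cast hc
    by_cases hp : n.Prime
    · rw [if_neg (not_not.mpr hp), add_zero]
      by_cases hg : n ∈ Good u
      · rw [if_pos hg, ArithmeticFunction.vonMangoldt_apply_prime hp]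
        have h5 : Real.log n ≤ Real.log z := by
          apply Real.log_le_log
          · exact_mod_cast hp.pos
          · exact_mod_cast hn.2
        have h6 : 0 ≤ Real.log n := Real.log_natCast_nonneg n
        nlinarith
      · rw [if_neg hg]
        have : (PP (u ^ 4)).filter (fun l => n ≡ 1 [MOD l]) = ∅ := by
          rw [filter_eq_empty_iff]
          intro l hl hmod
          apply hg
          unfold Good
          rw [mem_filter, mem_Icc]
          exact ⟨hn, hp, l, hl, (Nat.modEq_iff_dvd' (by omega)).1 hmod.symm⟩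
        rw [this]
        simp
    · rw [if_pos hp]
      have : 0 ≤ (if n ∈ Good u then Real.log (z : ℝ) else 0) := by
        split_ifs
        · exact hL
        · exact le_rfl
      nlinarith

theorem good_large : ∀ᶠ u : ℕ in atTop, 2 * (u : ℝ) ^ 9 ≤ (Good u).card := by
  obtain ⟨B, X0, hB⟩ := H343E.unsmoothed 2
  have t4 : Tendsto (fun u : ℕ => u ^ 4) atTop atTop := tendsto_pow_atTop (by norm_num)
  have t10 : Tendsto (fun u : ℕ => ((u ^ 10 : ℕ) : ℝ)) atTop atTop :=
    tendsto_natCast_atTop_atTop.comp (tendsto_pow_atTop (by norm_num))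
  have tl : Tendsto (fun u : ℕ => Real.log u) atTop atTop :=
    Real.tendsto_log_atTop.comp tendsto_natCast_atTop_atTop
  filter_upwards [t4.eventually card_PP, t10.eventually psi_lower, t10.eventually_ge_atTop X0,
    log_pow_le 10 (by norm_num) B, log_pow_le 100 (by norm_num) 2, tl.eventually_ge_atTop 1,
    eventually_ge_atTop 1000] with u h1 h2 h3 h4 h5 h6 hu
  have hur : (1000 : ℝ) ≤ u := by exact_mod_cast hu
  set L := Real.log u with hL
  set X : ℝ := ((u ^ 10 : ℕ) : ℝ) with hX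
  have hXe : X = (u : ℝ) ^ 10 := by rw [hX]; push_cast; ring
  have hX0 : 0 < X := by rw [hXe]; positivity
  have hlogX : Real.log X = 10 * L := by rw [hXe, Real.log_pow]; push_cast; ring
  have hgc := good_count u (by omega)
  -- lower bound
  set F : ℕ → Finset ℕ := fun q => if 2 ≤ q then {1} else ∅ with hF
  have hFam : H343E.Fam 1 F := by
    constructor
    · intro q a ha
      rw [hF] at ha
      dsimp only at ha
      split_ifs at ha with h
      · rw [mem_singleton] at ha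
        subst ha
        exact ⟨by omega, Nat.coprime_one_left q⟩
      · exact absurd ha (notMem_empty _)
    · intro q
      rw [hF]
      dsimp only
      split_ifs <;> simp
  have hD1 : ((8 * u ^ 4 : ℕ) : ℝ) ^ 2 ≤ 1 * X / Real.log X ^ B := by
    rw [one_mul, hlogX, le_div_iff₀ (by positivity)]
    calc ((8 * u ^ 4 : ℕ) : ℝ) ^ 2 * (10 * L) ^ B ≤ ((8 * u ^ 4 : ℕ) : ℝ) ^ 2 * u := by gcongr
      _ = 64 * (u : ℝ) ^ 9 := by push_cast; ring
      _ ≤ u * (u : ℝ) ^ 9 := by gcongr; linarith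
      _ = X := by rw [hXe]; ring
  have hD2 : ((8 * u ^ 4 : ℕ) : ℝ) ≤ X / Real.log X ^ B := by
    refine le_trans ?_ (hD1.trans (by rw [one_mul]))
    have : (1 : ℝ) ≤ ((8 * u ^ 4 : ℕ) : ℝ) := by
      have : 1 ≤ 8 * u ^ 4 := by
        have := Nat.one_le_pow 4 u (by omega)
        omega
      exact_mod_cast this
    nlinarith
  have hU := hB X h3 1 le_rfl (8 * u ^ 4) hD2 hD1 F hFam
  rw [one_mul] at hU
  have hsub : PP (u ^ 4) ⊆ Icc 1 (8 * u ^ 4) := by
    intro l hl
    rw [mem_PP] at hl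
    rw [mem_Icc]
    exact ⟨hl.2.one_le, hl.1.2⟩
  have hU2 : ∑ l ∈ PP (u ^ 4), |H343E.psiAP X l 1 - H343E.psi1 X / (Nat.totient l : ℝ)| ≤
      X / Real.log X ^ 2 := by
    refine le_trans ?_ hU
    calc ∑ l ∈ PP (u ^ 4), |H343E.psiAP X l 1 - H343E.psi1 X / (Nat.totient l : ℝ)|
        = ∑ l ∈ PP (u ^ 4), ∑ a ∈ F l,
          |H343E.psiAP X l a - H343E.psi1 X / (Nat.totient l : ℝ)| := by
          apply sum_congr rfl
          intro l hl
          rw [mem_PP] at hl
          have : F l = {1} := by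
            rw [hF]; dsimp only; rw [if_pos hl.2.two_le]
          rw [this, sum_singleton]
      _ ≤ _ := sum_le_sum_of_subset_of_nonneg hsub fun _ _ _ => sum_nonneg fun _ _ => abs_nonneg _
  have hlow : ∀ l ∈ PP (u ^ 4), 0.68 * X / (8 * (u : ℝ) ^ 4) -
      |H343E.psiAP X l 1 - H343E.psi1 X / (Nat.totient l : ℝ)| ≤ H343E.psiAP X l 1 := by
    intro l hl
    rw [mem_PP] at hl
    have h7 := neg_abs_le (H343E.psiAP X l 1 - H343E.psi1 X / (Nat.totient l : ℝ))
    have h8 : 0.68 * X / (8 * (u : ℝ) ^ 4) ≤ H343E.psi1 X / (Nat.totient l : ℝ) := by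
      rw [psi1_eq_psi]
      apply div_le_div₀ (Chebyshev.psi_nonneg _) h2
      · exact_mod_cast Nat.totient_pos.2 hl.2.pos
      · have : l.totient ≤ 8 * u ^ 4 := (Nat.totient_le l).trans hl.1.2
        exact_mod_cast this
    linarith
  have hsum := sum_le_sum hlow
  rw [sum_sub_distrib, sum_const, nsmul_eq_mul] at hsum
  have hlog8 : Real.log (8 * ((u ^ 4 : ℕ) : ℝ)) ≤ 5 * L := by
    rw [hL, show (5 : ℝ) = ((5 : ℕ) : ℝ) by norm_num, ← Real.log_pow]
    apply Real.log_le_log (by positivity)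
    push_cast
    have : (u : ℝ) ^ 5 = u * u ^ 4 := by ring
    rw [this]
    gcongr
    linarith
  have hcard : 3.9 * (u : ℝ) ^ 4 ≤ (PP (u ^ 4)).card * (5 * L) := by
    push_cast at h1 hlog8
    refine h1.trans ?_
    gcongr
  have hL0 : 0 < L := by linarith
  have hu0 : (0 : ℝ) < u := by linarith
  have hmain : 0.06 * X / L ≤ (PP (u ^ 4)).card * (0.68 * X / (8 * (u : ℝ) ^ 4)) := by
    rw [div_le_iff₀ hL0]
    have h9 : 0.78 / 8 ≤ (PP (u ^ 4)).card / (8 * (u : ℝ) ^ 4) * L := by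
      rw [div_mul_eq_mul_div, div_le_div_iff₀ (by norm_num) (by positivity)]
      nlinarith
    calc 0.06 * X ≤ (0.78 / 8) * (0.68 * X) := by nlinarith
      _ ≤ ((PP (u ^ 4)).card / (8 * (u : ℝ) ^ 4) * L) * (0.68 * X) := by gcongr
      _ = _ := by ring
  have herr : X / Real.log X ^ 2 ≤ 0.01 * X / L := by
    rw [hlogX, div_le_div_iff₀ (by positivity) hL0]
    nlinarith [mul_pos hX0 hL0, mul_nonneg (mul_pos hX0 hL0).le (by linarith : (0:ℝ) ≤ L - 1)]
  have hX1 : (1 : ℝ) ≤ X := by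
    rw [hXe]; exact one_le_pow₀ (by linarith)
  have hpt := Chebyshev.psi_sub_theta_le hX1
  have hsq : √X = (u : ℝ) ^ 5 := by
    rw [hXe, show (u : ℝ) ^ 10 = ((u : ℝ) ^ 5) ^ 2 by ring, Real.sqrt_sq (by positivity)]
  rw [hsq, hlogX] at hpt
  have hfin : 0.05 * X / L ≤ 2 * ((Good u).card * (10 * L) + 2 * (u : ℝ) ^ 5 * (10 * L)) := by
    have h10 : (0.05 : ℝ) * X / L = 0.06 * X / L - 0.01 * X / L := by ring
    rw [← hX, hlogX] at hgc
    rw [h10]
    linarith
  rw [div_le_iff₀ hL0, hXe] at hfin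
  have h11 : 10000 * L ^ 2 ≤ (u : ℝ) := by
    have : (100 * L) ^ 2 = 10000 * L ^ 2 := by ring
    rw [← this]
    exact h5
  -- 0.05 u^10 <= 20 L^2 (G + 2 u^5) <= (20/10000) u (G + 2u^5)
  have hG0 : (0 : ℝ) ≤ (Good u).card := Nat.cast_nonneg _
  have h12 : 0.05 * (u : ℝ) ^ 10 ≤ (0.002 * u) * ((Good u).card + 2 * (u : ℝ) ^ 5) := by
    calc 0.05 * (u : ℝ) ^ 10 ≤ (20 * L ^ 2) * ((Good u).card + 2 * (u : ℝ) ^ 5) := by
          refine hfin.trans (le_of_eq ?_)
          ring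
      _ ≤ (0.002 * u) * ((Good u).card + 2 * (u : ℝ) ^ 5) := by
          apply mul_le_mul_of_nonneg_right _ (by positivity)
          linarith
  have h13 : 25 * (u : ℝ) ^ 9 ≤ (Good u).card + 2 * (u : ℝ) ^ 5 := by
    have : (0.002 * (u : ℝ)) * (25 * (u : ℝ) ^ 9) ≤ (0.002 * u) * ((Good u).card + 2 * (u : ℝ) ^ 5) := by
      refine le_trans (le_of_eq ?_) h12
      ring
    exact le_of_mul_le_mul_left this (by positivity)
  have h14 : (u : ℝ) ^ 5 ≤ (u : ℝ) ^ 9 := pow_le_pow_right₀ (by linarith) (by norm_num)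
  linarith

theorem smooth_set : ∀ᶠ u : ℕ in atTop, ∃ Q : Finset ℕ, Q.card = u ^ 9 ∧
    (∀ q ∈ Q, q.Prime ∧ u ^ 9 < q ∧ q ≤ u ^ 10) ∧
    ∀ q ∈ Q, ∀ r, r.Prime → r ∣ q - 1 → r ≤ u ^ 6 := by
  filter_upwards [good_large, eventually_ge_atTop 10] with u h1 hu
  have h2 : 2 * u ^ 9 ≤ (Good u).card := by exact_mod_cast h1
  have h3 : u ^ 9 ≤ ((Good u).filter (fun q => ¬ q ≤ u ^ 9)).card := by
    have h4 := card_filter_add_card_filter_not (s := Good u) (fun q => q ≤ u ^ 9)
    have h5 : ((Good u).filter (fun q => q ≤ u ^ 9)).card ≤ u ^ 9 := by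
      calc ((Good u).filter (fun q => q ≤ u ^ 9)).card ≤ (Icc 1 (u ^ 9)).card := by
            apply card_le_card
            intro q hq
            rw [mem_filter] at hq
            unfold Good at hq
            rw [mem_filter, mem_Icc] at hq
            rw [mem_Icc]
            exact ⟨hq.1.1.1, hq.2⟩
        _ = u ^ 9 := by rw [Nat.card_Icc]; omega
    omega
  obtain ⟨Q, hQ, hQc⟩ := exists_subset_card_eq h3
  have hmem : ∀ q ∈ Q, (1 ≤ q ∧ q ≤ u ^ 10) ∧ q.Prime ∧ (∃ l ∈ PP (u ^ 4), l ∣ q - 1) ∧ u ^ 9 < q := by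
    intro q hq
    have := hQ hq
    rw [mem_filter] at this
    unfold Good at this
    rw [mem_filter, mem_Icc] at this
    exact ⟨this.1.1, this.1.2.1, this.1.2.2, not_le.1 this.2⟩
  refine ⟨Q, hQc, fun q hq => ⟨(hmem q hq).2.1, (hmem q hq).2.2.2, (hmem q hq).1.2⟩, ?_⟩
  intro q hq r hr hrq
  obtain ⟨⟨_, hq1⟩, hqp, ⟨l, hl, hlq⟩, _⟩ := hmem q hq
  rw [mem_PP] at hl
  have hq0 : 0 < q - 1 := by
    have := hqp.two_le
    omega
  by_cases hrl : r = l
  · subst hrl
    calc r ≤ 8 * u ^ 4 := hl.1.2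
      _ ≤ u ^ 2 * u ^ 4 := by
          apply Nat.mul_le_mul_right
          nlinarith
      _ = u ^ 6 := by ring
  · have hcop : Nat.Coprime r l := (Nat.coprime_primes hr hl.2).2 hrl
    have h4 := Nat.le_of_dvd hq0 (hcop.mul_dvd_of_dvd_of_dvd hrq hlq)
    by_contra hcon
    push Not at hcon
    have h5 : u ^ 6 * u ^ 4 ≤ r * l := Nat.mul_le_mul hcon.le hl.1.1.le
    have h6 : u ^ 6 * u ^ 4 = u ^ 10 := by ring
    omega

end Pool.Agent.E8helper15.AGP
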